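import Pool.Agent.Helper65.CG.Defs

/-! More definitions for the upper bound: the constant, tuples, link graphs, one bet family. -/

set_option autoImplicit false

namespace Pool.Agent.Helper65.CG

open scoped Classical
open Pool.Agent.Helper65.CliqueGame

variable {n q m : ℕ}

/-- the constant `C_m` -/
noncomputable def Cst (m : ℕ) : ℝ :=
  if m ≤ 3 then 2
  else if m ≤ 5 then
    (1 + Real.sqrt (m * (m * Real.logb 2 ((m : ℝ) + 1) - 2 * Real.logb 2 ((m : ℝ) + 1) + 1) /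
      (m - Real.logb 2 ((m : ℝ) + 1)))) / Real.logb 2 ((m : ℝ) + 1)
  else m / Real.logb 2 ((m : ℝ) + 1)

/-- the constant in the second family of bets -/
noncomputable def cB (m q d J n : ℕ) : ℝ :=
  60 * (m + 1) * (d + 1) * (J + 1) * (q + 1) ^ 3 * (Lg n + 1)

/-- `Z` is a living injective tuple with at most `κ` free edges -/
def NearT (ℓ : Sym2 (Fin n) → ℕ) (κ : ℕ) (Z : Fin q → Fin n) : Prop :=
  Function.Injective Z ∧ (∀ i j, lk ℓ Z i j ≠ 1) ∧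
    (Finset.univ.filter (fun p : Fin q × Fin q => p.1 < p.2 ∧ lk ℓ Z p.1 p.2 = 0)).card ≤ κ

/-- number of Maker edges from `v` to `D` -/
noncomputable def dM (ℓ : Sym2 (Fin n) → ℕ) (D : Finset (Fin n)) (v : Fin n) : ℕ :=
  (D.filter (fun u => 2 ≤ ℓ s(u, v))).card

/-! ### Labels of a position -/

/-- the label of an edge of Maker: two plus the number of edges claimed by Maker before -/
noncomputable def labOf : List (Finset (Sym2 (Fin n))) → Sym2 (Fin n) → ℕ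
  | [], _ => 0
  | R :: Rs, e => if e ∈ R then (uni Rs).card + 2 else labOf Rs e

/-- the labelling of a position -/
noncomputable def labP (Rs : List (Finset (Sym2 (Fin n)))) (B : Finset (Sym2 (Fin n)))
    (e : Sym2 (Fin n)) : ℕ := if e ∈ B then 1 else labOf Rs e

/-! ### One family of bets -/

/-- the value of the weights `β` -/
noncomputable def val (β : Finset (Sym2 (Fin n)) → ℝ) (ℓ : Sym2 (Fin n) → ℕ) : ℝ :=
  ∑ U, if Alive ℓ U then β U * (2 : ℝ) ^ (ga ℓ U) else 0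

/-- the second family of bets for fixed `s`, `r` -/
def Bet2sr (ℓ : Sym2 (Fin n) → ℕ) (q d J s r : ℕ) (c : ℝ) : Prop :=
  ∀ (V : Fin q → Finset (Finset (Fin n))) (lev : List (Lev q n)) (x : ℕ), Cpx V lev x d J s →
  ∀ (Y : Prs q) (y : ℕ) (T : Finset (Fin r → Conf q n × Prs q)) (g : ℝ), T.Nonempty →
    (∀ τ ∈ T, (∀ k, (τ k).1 ∈ Fam ℓ V lev x ∧ (τ k).2 ∈ Ych Y y) ∧
      Alive ℓ (Ut τ) ∧ g ≤ ga ℓ (Ut τ)) →
    lb T.card + g ≤ r * (lb (Fam ℓ V lev x).card + lb (Ych Y y).card) + c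

/-! ### Link graphs -/

/-- the link graph of slot `i` -/
noncomputable def lg (ℓ : Sym2 (Fin n) → ℕ) (Z : Fin q → Fin n) (F : Finset (Fin q))
    (i : Fin q) : Finset (Fin q × Fin q) :=
  (F ×ˢ F).filter (fun p => p.1 ≠ i ∧ p.2 ≠ i ∧ 2 ≤ lk ℓ Z p.1 p.2 ∧
    ∃ h ∈ F, h ≠ i ∧ lk ℓ Z i h = lk ℓ Z p.1 p.2)

/-- `M` is a matching -/
def IsM (M : Finset (Fin q × Fin q)) : Prop :=
  ∀ p ∈ M, p.1 ≠ p.2 ∧ ∀ p' ∈ M, p ≠ p' →
    p.1 ≠ p'.1 ∧ p.1 ≠ p'.2 ∧ p.2 ≠ p'.1 ∧ p.2 ≠ p'.2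

/-- the slots whose link graph has a matching of size `μ` -/
noncomputable def Mt (ℓ : Sym2 (Fin n) → ℕ) (Z : Fin q → Fin n) (F : Finset (Fin q)) (μ : ℕ) :
    Finset (Fin q) :=
  F.filter (fun i => ∃ M ⊆ lg ℓ Z F i, IsM M ∧ M.card = μ)

/-- the labels that occur at both slots -/
noncomputable def RN (ℓ : Sym2 (Fin n) → ℕ) (Z : Fin q → Fin n) (F : Finset (Fin q))
    (i k : Fin q) : Finset ℕ :=
  (Finset.range (n ^ 2 + 2)).filter (fun a => 2 ≤ a ∧ (∃ h ∈ F, h ≠ i ∧ h ≠ k ∧ lk ℓ Z i h = a) ∧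
    ∃ h ∈ F, h ≠ i ∧ h ≠ k ∧ lk ℓ Z k h = a)

/-- strongly related slots -/
def Str (ℓ : Sym2 (Fin n) → ℕ) (Z : Fin q → Fin n) (F : Finset (Fin q)) (K : ℕ)
    (i k : Fin q) : Prop := i ≠ k ∧ K ≤ (RN ℓ Z F i k).card

/-- the seeds through which slot `k` is determined by slot `i` -/
noncomputable def Hs (ℓ : Sym2 (Fin n) → ℕ) (Z : Fin q → Fin n) (F : Finset (Fin q))
    (i k : Fin q) : Finset (Fin q) :=
  F.filter (fun h => h ≠ i ∧ h ≠ k ∧ 2 ≤ lk ℓ Z i h ∧ ∃ h' ∈ F, lk ℓ Z k h' = lk ℓ Z i h)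

end Pool.Agent.Helper65.CG
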