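import Pool.Agent.Helper65.CG.Real

/-! The static argument for a fixed `n`. -/

set_option autoImplicit false

namespace Pool.Agent.Helper65.CG

open scoped Classical
open Pool.Agent.Helper65.CliqueGame

variable {n q m : ℕ}

/-- the number of missing edges at slot `i` -/
noncomputable def mis (ℓ : Sym2 (Fin n) → ℕ) (Z : Fin q → Fin n) (i : Fin q) : ℕ :=
  (Finset.univ.filter (fun j => j ≠ i ∧ lk ℓ Z i j = 0)).card

theorem lk_comm (ℓ : Sym2 (Fin n) → ℕ) (Z : Fin q → Fin n) (i j : Fin q) :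
    lk ℓ Z i j = lk ℓ Z j i := by
  unfold lk; rw [Sym2.eq_swap]

theorem sum_mis {ℓ : Sym2 (Fin n) → ℕ} {κ : ℕ} {Z : Fin q → Fin n} (h : NearT ℓ κ Z) :
    ∑ i, mis ℓ Z i ≤ 2 * κ := by
  have h1 : ∑ i, mis ℓ Z i =
      (Finset.univ.filter (fun p : Fin q × Fin q => p.2 ≠ p.1 ∧ lk ℓ Z p.1 p.2 = 0)).card := by
    unfold mis
    rw [← Finset.card_sigma]
    refine Finset.card_bij (fun x _ => (x.1, x.2)) ?_ ?_ ?_
    · intro x hx
      rw [Finset.mem_sigma] at hx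
      simpa using hx.2
    · intro x _ y _ hxy
      simp only [Prod.mk.injEq] at hxy
      exact Sigma.ext hxy.1 (heq_of_eq hxy.2)
    · intro p hp
      exact ⟨⟨p.1, p.2⟩, by simpa using hp, rfl⟩
  rw [h1]
  have h2 : (Finset.univ.filter (fun p : Fin q × Fin q => p.2 ≠ p.1 ∧ lk ℓ Z p.1 p.2 = 0)) ⊆
      (Finset.univ.filter (fun p : Fin q × Fin q => p.1 < p.2 ∧ lk ℓ Z p.1 p.2 = 0)) ∪
      (Finset.univ.filter (fun p : Fin q × Fin q => p.1 < p.2 ∧ lk ℓ Z p.1 p.2 = 0)).image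
        Prod.swap := by
    intro p hp
    simp only [Finset.mem_filter, Finset.mem_univ, true_and] at hp
    rw [Finset.mem_union, Finset.mem_image]
    rcases lt_or_gt_of_ne hp.1 with h | h
    · right
      refine ⟨(p.2, p.1), ?_, rfl⟩
      simp only [Finset.mem_filter, Finset.mem_univ, true_and]
      exact ⟨h, by rw [lk_comm]; exact hp.2⟩
    · left
      simp only [Finset.mem_filter, Finset.mem_univ, true_and]
      exact ⟨h, hp.2⟩
  refine (Finset.card_le_card h2).trans ((Finset.card_union_le _ _).trans ?_)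
  have h3 := Finset.card_image_le (s := (Finset.univ.filter
    (fun p : Fin q × Fin q => p.1 < p.2 ∧ lk ℓ Z p.1 p.2 = 0))) (f := Prod.swap)
  have h4 := h.2.2
  omega

theorem card_mis {ℓ : Sym2 (Fin n) → ℕ} {κ : ℕ} {Z : Fin q → Fin n} (h : NearT ℓ κ Z) (t₀ : ℕ) :
    (Finset.univ.filter (fun i => t₀ < mis ℓ Z i)).card * (t₀ + 1) ≤ 2 * κ := by
  refine le_trans ?_ (sum_mis h)
  rw [← smul_eq_mul, ← Finset.sum_const]
  refine le_trans (Finset.sum_le_sum (g := fun i => mis ℓ Z i) ?_)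
    (Finset.sum_le_sum_of_subset (Finset.filter_subset _ _))
  intro i hi
  exact (Finset.mem_filter.1 hi).2

/-- the predicate carried through the pigeonhole argument -/
def PredD (ℓ : Sym2 (Fin n) → ℕ) (vt : ℕ → Fin (2 * m) → Fin n) (F : Finset (Fin q))
    (d b t₀ : ℕ) (drop : ℝ) (Z : Fin q → Fin n) (D : Clu q m) : Prop :=
  CluOK ℓ vt Z D d b ∧ D.G ⊆ F ∧ ((F \ D.G).card : ℝ) ≤ drop ∧ ∀ i ∈ D.G, mis ℓ Z i ≤ t₀

theorem shrink {ℓ : Sym2 (Fin n) → ℕ} {vt : ℕ → Fin (2 * m) → Fin n} {Z : Fin q → Fin n}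
    {D : Clu q m} {d b : ℕ} (h : CluOK ℓ vt Z D d b) (G' : Finset (Fin q)) (hG : G' ⊆ D.G) :
    CluOK ℓ vt Z { D with G := G' } d b := by
  refine ⟨h.det, fun i hi k hk => h.conn i (hG hi) k (hG hk), fun P => ?_, ?_⟩
  · refine le_trans (Finset.card_le_card ?_) (h.size P)
    intro i hi
    unfold Clu.mem at hi ⊢
    rw [Finset.mem_filter] at hi ⊢
    exact ⟨hG hi.1, hi.2⟩
  · refine le_trans (Finset.card_le_card ?_) h.bad
    intro a ha
    rw [Finset.mem_filter] at ha ⊢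
    refine ⟨ha.1, ha.2.1, ?_⟩
    obtain ⟨i, hi, j, hj, i', hi', j', hj', h1⟩ := ha.2.2
    exact ⟨i, hG hi, j, hG hj, i', hG hi', j', hG hj', h1⟩

theorem exists_clu {ℓ : Sym2 (Fin n) → ℕ} (hm : 1 ≤ m) (hℓ : Lab m ℓ)
    {vt : ℕ → Fin (2 * m) → Fin n} (hvt : Enum m ℓ vt) {κ : ℕ} {Z : Fin q → Fin n}
    (hZ : NearT ℓ κ Z) {F : Finset (Fin q)} {s₀ τ₀ d μ K : ℕ} {ε : ℝ}
    (hε : 0 < ε) (hε1 : ε < 1) (hμ : (1 - ε ^ 2) ^ μ ≤ 1 / 8) (hK : 2 * μ < K) (hd : 1 ≤ d)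
    (hT : Tame ℓ Z F s₀ τ₀) (hs : 4 * ε * q + q / d ≤ s₀) (t₀ : ℕ) :
    ∃ D : Clu q m, D.S.card ≤ ⌊4 * ε * q⌋₊ ∧ D.h.card ≤ 2 * μ * q ∧
      PredD ℓ vt F d (2 * μ * K * q) t₀
        (3 * τ₀ + 8 * μ * (1 - ε) ^ K * q + 2 * κ / (t₀ + 1)) Z D := by
  obtain ⟨D, h1, h2, h3, h4, h5⟩ := cluster hm hℓ hvt hZ.1 hε hε1 hμ hK hd hT hs
  refine ⟨{ D with G := D.G.filter (fun i => mis ℓ Z i ≤ t₀) }, ?_, h4, ?_, ?_, ?_, ?_⟩
  · exact Nat.le_floor h1
  · exact shrink h5 _ (Finset.filter_subset _ _)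
  · exact (Finset.filter_subset _ _).trans h2
  · have h6 : F \ D.G.filter (fun i => mis ℓ Z i ≤ t₀) ⊆
        (F \ D.G) ∪ Finset.univ.filter (fun i => t₀ < mis ℓ Z i) := by
      intro i hi
      rw [Finset.mem_sdiff, Finset.mem_filter] at hi
      rw [Finset.mem_union, Finset.mem_sdiff, Finset.mem_filter]
      by_cases h : i ∈ D.G
      · right
        refine ⟨Finset.mem_univ _, ?_⟩
        by_contra h'
        exact hi.2 ⟨h, not_lt.1 h'⟩
      · left; exact ⟨hi.1, h⟩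
    have h7 := (Finset.card_le_card h6).trans (Finset.card_union_le _ _)
    have h8 := card_mis hZ t₀
    have h9 : ((Finset.univ.filter (fun i => t₀ < mis ℓ Z i)).card : ℝ) ≤ 2 * κ / (t₀ + 1) := by
      rw [le_div_iff₀ (by positivity)]
      exact_mod_cast h8
    have h10 : (((F \ D.G.filter (fun i => mis ℓ Z i ≤ t₀)).card : ℕ) : ℝ) ≤
        (F \ D.G).card + (Finset.univ.filter (fun i => t₀ < mis ℓ Z i)).card := by
      exact_mod_cast h7
    show (((F \ D.G.filter (fun i => mis ℓ Z i ≤ t₀)).card : ℕ) : ℝ) ≤ _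
    linarith
  · intro i hi
    exact (Finset.mem_filter.1 hi).2

end Pool.Agent.Helper65.CG
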