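import Pool.Agent.Helper65.Clique.Pot
import Pool.Agent.Helper65.Clique.Cod

/-!
# The exact constant in the `(m : m)` clique game: definitions for the upper bound

A position is described by a labelling `ℓ : Sym2 (Fin n) → ℕ` of the edges: `0` = free (or not an
edge), `1` = Breaker, `a ≥ 2` = claimed by Maker in his round with name `a`.
-/

set_option autoImplicit false

namespace Pool.Agent.Helper65.CG

open scoped Classical
open Pool.Agent.Helper65.CliqueGame

variable {n q m : ℕ}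

/-- `L = log₂ n` -/
noncomputable def Lg (n : ℕ) : ℝ := Real.logb 2 (n : ℝ)

/-- the base two logarithm of a natural number -/
noncomputable def lb (k : ℕ) : ℝ := Real.logb 2 (k : ℝ)

/-- `ρ_m(x) = ⌊x/m⌋ log₂(m+1) + log₂(1 + (x mod m))` -/
noncomputable def rho (m x : ℕ) : ℝ :=
  ((x / m : ℕ) : ℝ) * Real.logb 2 ((m : ℝ) + 1) + Real.logb 2 (1 + ((x % m : ℕ) : ℝ))

/-- the number of edges of `U` with the label `a` -/
noncomputable def cnt (ℓ : Sym2 (Fin n) → ℕ) (U : Finset (Sym2 (Fin n))) (a : ℕ) : ℕ :=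
  (U.filter (fun e => ℓ e = a)).card

/-- Maker's gain inside `U`, in bits: `∑_a log₂ (1 + number of edges of U with label a)` over the
Maker labels `a ≥ 2` -/
noncomputable def ga (ℓ : Sym2 (Fin n) → ℕ) (U : Finset (Sym2 (Fin n))) : ℝ :=
  ∑ a ∈ (U.image ℓ).filter (fun a => 2 ≤ a), Real.logb 2 (1 + (cnt ℓ U a : ℝ))

/-- `U` contains no edge of Breaker -/
def Alive (ℓ : Sym2 (Fin n) → ℕ) (U : Finset (Sym2 (Fin n))) : Prop := ∀ e ∈ U, ℓ e ≠ 1

/-- a labelling that comes from a position of the `(m : m)` game -/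
structure Lab (m : ℕ) (ℓ : Sym2 (Fin n) → ℕ) : Prop where
  diag : ∀ e : Sym2 (Fin n), e.IsDiag → ℓ e = 0
  bd : ∀ e, ℓ e ≤ n ^ 2 + 1
  size : ∀ a, 2 ≤ a → (Finset.univ.filter (fun e => ℓ e = a)).card ≤ m

/-- the living `q`-sets with at most `κ` free edges -/
noncomputable def near (ℓ : Sym2 (Fin n) → ℕ) (q κ : ℕ) : Finset (Finset (Fin n)) :=
  Finset.univ.filter (fun A => A.card = q ∧ Alive ℓ (inn A) ∧
    ((inn A).filter (fun e => ℓ e = 0)).card ≤ κ)

/-- all edges between `v` and `w` -/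
noncomputable def join (v w : Finset (Fin n)) : Finset (Sym2 (Fin n)) :=
  (v ×ˢ w).image (fun p => s(p.1, p.2))

/-- a configuration: a vertex set for each class -/
abbrev Conf (q n : ℕ) := Fin q → Finset (Fin n)

/-- a set of pairs of classes -/
abbrev Prs (q : ℕ) := Finset (Fin q × Fin q)

/-- the edges of the configuration `Z` on the class pairs `Y` -/
noncomputable def UU (Z : Conf q n) (Y : Prs q) : Finset (Sym2 (Fin n)) :=
  Y.biUnion (fun p => join (Z p.1) (Z p.2))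

/-- one level of the advice: class pairs, excluded (pair, edge) combinations, gain threshold -/
structure Lev (q n : ℕ) where
  Y : Prs q
  Ex : Finset ((Fin q × Fin q) × Sym2 (Fin n))
  g : ℕ

/-- the configuration `Z` is admissible on the class pairs `Y` -/
def Cond (ℓ : Sym2 (Fin n) → ℕ) (Z : Conf q n) (Y : Prs q)
    (Ex : Finset ((Fin q × Fin q) × Sym2 (Fin n))) (g : ℕ) : Prop :=
  (∀ p ∈ Y, ∀ e ∈ join (Z p.1) (Z p.2), (p, e) ∉ Ex) ∧ Alive ℓ (UU Z Y) ∧
    (g : ℝ) ≤ ga ℓ (UU Z Y)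

/-- the family of the configurations with values in the lists `V` which are admissible, up to at
most `x` exceptional class pairs, on each level of `lev` -/
noncomputable def Fam (ℓ : Sym2 (Fin n) → ℕ) (V : Fin q → Finset (Finset (Fin n)))
    (lev : List (Lev q n)) (x : ℕ) : Finset (Conf q n) :=
  Finset.univ.filter (fun Z => (∀ P, Z P ∈ V P) ∧
    ∀ l ∈ lev, ∃ X ⊆ l.Y, X.card ≤ x ∧ Cond ℓ Z (l.Y \ X) l.Ex l.g)

/-- all edges between members of the lists, for the class pairs `Y` -/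
noncomputable def LowY (V : Fin q → Finset (Finset (Fin n))) (Y : Prs q) :
    Finset (Sym2 (Fin n)) :=
  Y.biUnion (fun p => (V p.1 ×ˢ V p.2).biUnion (fun vw => join vw.1 vw.2))

/-- the data `V`, `lev`, `x` have complexity at most `s` -/
def Cpx (V : Fin q → Finset (Finset (Fin n))) (lev : List (Lev q n)) (x d J s : ℕ) : Prop :=
  lev.length ≤ J ∧ x ≤ q ^ 2 ∧ (∀ P, (V P).card ≤ s) ∧ (∀ P, ∀ v ∈ V P, v.card ≤ d) ∧
    ∀ l ∈ lev, (LowY V l.Y).card ≤ s ∧ l.Ex.card ≤ s ∧ l.g ≤ (q * d) ^ 2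

/-- the subsets of `Y` with at most `y` missing pairs -/
noncomputable def Ych (Y : Prs q) (y : ℕ) : Finset (Prs q) :=
  Y.powerset.filter (fun Y' => (Y \ Y').card ≤ y)

/-- the edge set of a tuple of samples -/
noncomputable def Ut {r : ℕ} (τ : Fin r → Conf q n × Prs q) : Finset (Sym2 (Fin n)) :=
  Finset.univ.biUnion (fun k => UU (τ k).1 (τ k).2)

/-- the first family of bets: complete bipartite graphs -/
def Bet1 (ℓ : Sym2 (Fin n) → ℕ) (c : ℝ) : Prop :=
  ∀ D X : Finset (Fin n), X.Nonempty → Alive ℓ (join D X) →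
    ga ℓ (join D X) ≤ D.card * Lg n + X.card * (Lg n - lb X.card + 2) + c

/-- the second family of bets: unions of `r` samples from a family with advice -/
def Bet2 (ℓ : Sym2 (Fin n) → ℕ) (q d J : ℕ) (c : ℝ) : Prop :=
  ∀ s r : ℕ, 1 ≤ s → s ≤ n ^ 4 → 1 ≤ r → r ≤ n ^ 4 →
  ∀ (V : Fin q → Finset (Finset (Fin n))) (lev : List (Lev q n)) (x : ℕ), Cpx V lev x d J s →
  ∀ (Y : Prs q) (y : ℕ) (T : Finset (Fin r → Conf q n × Prs q)) (g : ℝ), T.Nonempty →
    (∀ τ ∈ T, (∀ k, (τ k).1 ∈ Fam ℓ V lev x ∧ (τ k).2 ∈ Ych Y y) ∧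
      Alive ℓ (Ut τ) ∧ g ≤ ga ℓ (Ut τ)) →
    lb T.card + g ≤ r * (lb (Fam ℓ V lev x).card + lb (Ych Y y).card) + c * s

/-! ### Slots -/

/-- the values of slot `i` -/
noncomputable def supp (A : Finset (Fin q → Fin n)) (i : Fin q) : Finset (Fin n) :=
  A.image (fun Z => Z i)

/-- regularity of a family of ordered `q`-tuples -/
def RegS (A : Finset (Fin q → Fin n)) (ξ : ℝ) : Prop :=
  ∀ A' ⊆ A, A'.Nonempty →
    ξ * ∑ i, ((lb (supp A i).card - lb (supp A' i).card) +
      if 1 < (supp A i).card ∧ (supp A' i).card = 1 then Lg n else 0) ≤ lb A.card - lb A'.card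

/-- the non-constant slots -/
noncomputable def Fr (A : Finset (Fin q → Fin n)) : Finset (Fin q) :=
  Finset.univ.filter (fun i => 1 < (supp A i).card)

/-- the label of the edge between two slots -/
def lk (ℓ : Sym2 (Fin n) → ℕ) (Z : Fin q → Fin n) (i j : Fin q) : ℕ := ℓ s(Z i, Z j)

/-- one derivation step: slot `k` is derived from the slots `i, j` if the round of the edge
`Z i Z j` contains another edge of `Z` at `Z k` -/
noncomputable def dstep (ℓ : Sym2 (Fin n) → ℕ) (Z : Fin q → Fin n) (S : Finset (Fin q)) :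
    Finset (Fin q) :=
  Finset.univ.filter (fun k => k ∈ S ∨
    ∃ i ∈ S, ∃ j ∈ S, ∃ h, 2 ≤ lk ℓ Z i j ∧ lk ℓ Z k h = lk ℓ Z i j)

/-- the slots derived from `S` -/
noncomputable def dcl (ℓ : Sym2 (Fin n) → ℕ) (Z : Fin q → Fin n) (S : Finset (Fin q)) :
    Finset (Fin q) :=
  (dstep ℓ Z)^[q] S

/-- few slots are derived from few slots -/
def Tame (ℓ : Sym2 (Fin n) → ℕ) (Z : Fin q → Fin n) (F : Finset (Fin q)) (s₀ τ₀ : ℕ) : Prop :=
  ∀ S : Finset (Fin q), S.card ≤ s₀ → (dcl ℓ Z S ∩ F).card ≤ τ₀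

/-- `vt a` enumerates the vertices of the round with label `a` -/
def Enum (m : ℕ) (ℓ : Sym2 (Fin n) → ℕ) (vt : ℕ → Fin (2 * m) → Fin n) : Prop :=
  ∀ a x, 2 ≤ a → (∃ e, ℓ e = a ∧ x ∈ e) → ∃ t, vt a t = x

/-- the label `a` occurs in two different class pairs -/
def BadLab (ℓ : Sym2 (Fin n) → ℕ) (Z : Fin q → Fin n) (G : Finset (Fin q)) (cls : Fin q → Fin q)
    (a : ℕ) : Prop :=
  ∃ i ∈ G, ∃ j ∈ G, ∃ i' ∈ G, ∃ j' ∈ G, lk ℓ Z i j = a ∧ lk ℓ Z i' j' = a ∧
    cls i ≠ cls j ∧ cls i' ≠ cls j' ∧ ¬ (cls i = cls i' ∧ cls j = cls j') ∧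
    ¬ (cls i = cls j' ∧ cls j = cls i')

/-- the data of a clustering -/
structure Clu (q m : ℕ) where
  S : Finset (Fin q)
  G : Finset (Fin q)
  h : Finset ((Fin q × Fin q) × (Fin q × Fin (2 * m)))
  cls : Fin q → Fin q

/-- the class with the name `P` -/
noncomputable def Clu.mem (D : Clu q m) (P : Fin q) : Finset (Fin q) :=
  D.G.filter (fun i => D.cls i = P)

/-- the value of the class `P` -/
noncomputable def Clu.cv (D : Clu q m) (Z : Fin q → Fin n) : Conf q n :=
  fun P => (D.mem P).image Z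

/-- the clustering `D` is good for `Z` -/
structure CluOK (ℓ : Sym2 (Fin n) → ℕ) (vt : ℕ → Fin (2 * m) → Fin n) (Z : Fin q → Fin n)
    (D : Clu q m) (d b : ℕ) : Prop where
  det : ∀ x ∈ D.h, x.2.1 ∈ D.S ∧ Z x.1.2 = vt (lk ℓ Z x.1.1 x.2.1) x.2.2
  conn : ∀ i ∈ D.G, ∀ k ∈ D.G, D.cls i = D.cls k →
    Relation.ReflTransGen (fun a c => ∃ y, ((a, c), y) ∈ D.h) i k
  size : ∀ P, (D.mem P).card ≤ d
  bad : ((Finset.range (n ^ 2 + 2)).filter (fun a => 2 ≤ a ∧ BadLab ℓ Z D.G D.cls a)).card ≤ b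

/-- regularity of a family with class values `cv` in the lists `V` -/
def RegC {Ω : Type} (A : Finset Ω) (cv : Ω → Conf q n) (PP : Finset (Fin q))
    (V : Fin q → Finset (Finset (Fin n))) (ξ η : ℝ) : Prop :=
  ∀ A' ⊆ A, A'.Nonempty →
    ξ * ∑ P ∈ PP, (lb (V P).card - lb (A'.image (fun Z => cv Z P)).card) - η ≤
      lb A.card - lb A'.card

/-- the ordered pairs of classes from `PP` -/
noncomputable def prs (PP : Finset (Fin q)) : Prs q := (PP ×ˢ PP).filter (fun p => p.1 < p.2)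

/-- the classes of level at most `t` -/
noncomputable def Pt (PP : Finset (Fin q)) (V : Fin q → Finset (Finset (Fin n))) (t : ℝ) :
    Finset (Fin q) :=
  PP.filter (fun P => lb (V P).card ≤ t)

/-- the lists of the classes of level at most `t` -/
noncomputable def Vt (PP : Finset (Fin q)) (V : Fin q → Finset (Finset (Fin n))) (t : ℝ) :
    Fin q → Finset (Finset (Fin n)) :=
  fun P => if P ∈ Pt PP V t then V P else {∅}

/-- restriction of a configuration to the classes in `PP'` -/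
noncomputable def rst (PP' : Finset (Fin q)) (Z : Conf q n) : Conf q n :=
  fun P => if P ∈ PP' then Z P else ∅

end Pool.Agent.Helper65.CG
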