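import Pool.Agent.Helper65.CG.Real

/-! The main inequality (G): auxiliary facts. -/

set_option autoImplicit false

namespace Pool.Agent.Helper65.CG

open scoped Classical
open Pool.Agent.Helper65.CliqueGame

variable {n q m : ℕ}

theorem lb_one : lb 1 = 0 := by unfold lb; simp

theorem lb_nonneg (k : ℕ) : 0 ≤ lb k := by
  unfold lb
  rcases Nat.eq_zero_or_pos k with rfl | hk
  · simp
  · exact Real.logb_nonneg (by norm_num) (by exact_mod_cast hk)

theorem lb_mono {a b : ℕ} (ha : 1 ≤ a) (h : a ≤ b) : lb a ≤ lb b := by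
  unfold lb
  exact Real.logb_le_logb_of_le (by norm_num) (by exact_mod_cast ha) (by exact_mod_cast h)

theorem lb_mul {a b : ℕ} (ha : 1 ≤ a) (hb : 1 ≤ b) : lb (a * b) = lb a + lb b := by
  unfold lb
  push_cast
  exact Real.logb_mul (by positivity) (by positivity)

theorem lb_pow (a b : ℕ) : lb (a ^ b) = b * lb a := by
  unfold lb
  push_cast
  exact Real.logb_pow _ _ _

theorem le_rpow_of_lb {a : ℕ} {t : ℝ} (ha : 1 ≤ a) (h : lb a ≤ t) : (a : ℝ) ≤ 2 ^ t := by
  unfold lb at h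
  rwa [Real.logb_le_iff_le_rpow (by norm_num) (by exact_mod_cast ha)] at h

theorem UU_union (Z : Conf q n) (Y Y' : Prs q) : UU Z (Y ∪ Y') = UU Z Y ∪ UU Z Y' := by
  unfold UU
  exact Finset.union_biUnion

theorem UU_mono (Z : Conf q n) {Y Y' : Prs q} (h : Y ⊆ Y') : UU Z Y ⊆ UU Z Y' := by
  unfold UU
  exact Finset.biUnion_subset_biUnion_of_subset_left _ h

theorem card_join_le (v w : Finset (Fin n)) : (join v w).card ≤ v.card * w.card := by
  unfold join
  refine Finset.card_image_le.trans ?_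
  rw [Finset.card_product]

theorem card_UU_le (Z : Conf q n) (Y : Prs q) :
    (UU Z Y).card ≤ ∑ p ∈ Y, (Z p.1).card * (Z p.2).card := by
  unfold UU
  exact Finset.card_biUnion_le.trans (Finset.sum_le_sum fun p _ => card_join_le _ _)

theorem ga_le_card' (ℓ : Sym2 (Fin n) → ℕ) (U : Finset (Sym2 (Fin n))) : ga ℓ U ≤ U.card := by
  refine (ga_le_card ℓ U).trans ?_
  exact_mod_cast Finset.card_filter_le _ _

theorem ga_UU_le (ℓ : Sym2 (Fin n) → ℕ) (Z : Conf q n) (Y : Prs q) :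
    ga ℓ (UU Z Y) ≤ ((∑ p ∈ Y, (Z p.1).card * (Z p.2).card : ℕ) : ℝ) := by
  refine (ga_le_card' ℓ _).trans ?_
  exact_mod_cast card_UU_le Z Y

theorem ga_UU_range (ℓ : Sym2 (Fin n) → ℕ) (Z : Conf q n) (E : ℕ → Prs q) (J : ℕ) :
    ga ℓ (UU Z ((Finset.range J).biUnion E)) ≤ ∑ i ∈ Finset.range J, ga ℓ (UU Z (E i)) := by
  induction J with
  | zero =>
    simp only [Finset.range_zero, Finset.biUnion_empty, Finset.sum_empty]
    refine (ga_UU_le ℓ Z ∅).trans ?_
    simp
  | succ J ih =>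
    rw [Finset.sum_range_succ, Finset.range_add_one, Finset.biUnion_insert, UU_union]
    refine (ga_union_le ℓ _ _).trans ?_
    linarith

theorem sum_prs_le (PP : Finset (Fin q)) (k : Fin q → ℕ) (hk : ∑ P ∈ PP, k P ≤ q) :
    (∑ p ∈ prs PP, ((k p.1 * k p.2 : ℕ) : ℝ)) ≤ (q : ℝ) ^ 2 / 2 := by
  have h1 : 2 * ∑ p ∈ prs PP, k p.1 * k p.2 ≤ (∑ P ∈ PP, k P) * (∑ P ∈ PP, k P) := by
    rw [Finset.sum_mul_sum, ← Finset.sum_product', two_mul]
    have h2 : ∑ p ∈ prs PP, k p.1 * k p.2 =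
        ∑ p ∈ (PP ×ˢ PP).filter (fun p => p.2 < p.1), k p.1 * k p.2 := by
      refine Finset.sum_bij (fun p _ => (p.2, p.1)) ?_ ?_ ?_ ?_
      · intro p hp
        unfold prs at hp
        rw [Finset.mem_filter, Finset.mem_product] at hp ⊢
        exact ⟨⟨hp.1.2, hp.1.1⟩, hp.2⟩
      · intro p _ p' _ h
        simp only [Prod.mk.injEq] at h
        exact Prod.ext h.2 h.1
      · intro p hp
        rw [Finset.mem_filter, Finset.mem_product] at hp
        refine ⟨(p.2, p.1), ?_, rfl⟩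
        unfold prs
        rw [Finset.mem_filter, Finset.mem_product]
        exact ⟨⟨hp.1.2, hp.1.1⟩, hp.2⟩
      · intro p _
        exact mul_comm _ _
    nth_rewrite 2 [h2]
    unfold prs
    rw [← Finset.sum_union]
    · refine Finset.sum_le_sum_of_subset ?_
      exact Finset.union_subset (Finset.filter_subset _ _) (Finset.filter_subset _ _)
    · rw [Finset.disjoint_left]
      intro p hp hp'
      rw [Finset.mem_filter] at hp hp'
      exact absurd hp.2 (not_lt.2 hp'.2.le)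
  have h3 : 2 * ∑ p ∈ prs PP, k p.1 * k p.2 ≤ q * q := h1.trans (Nat.mul_le_mul hk hk)
  have h4 : (2 : ℝ) * ((∑ p ∈ prs PP, k p.1 * k p.2 : ℕ) : ℝ) ≤ (q : ℝ) * q := by
    exact_mod_cast h3
  push_cast at h4 ⊢
  linarith [sq (q : ℝ)]

/-- passing to a subfamily -/
theorem regC_sub {Ω : Type} {A A' : Finset Ω} {cv : Ω → Conf q n} {PP : Finset (Fin q)}
    {V : Fin q → Finset (Finset (Fin n))} {ξ η θ : ℝ} (h : RegC A cv PP V ξ η) (hA : A' ⊆ A)
    (hθ : lb A.card - θ ≤ lb A'.card) : RegC A' cv PP V ξ (η + θ) := by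
  intro A'' hA'' hne
  have := h A'' (hA''.trans hA) hne
  linarith

/-- pigeonhole with logarithms -/
theorem pigeon {Ω κ : Type} [DecidableEq κ] (A : Finset Ω) (hA : A.Nonempty) (f : Ω → κ)
    (T : Finset κ) (hf : ∀ Z ∈ A, f Z ∈ T) :
    ∃ y ∈ T, (A.filter (fun Z => f Z = y)).Nonempty ∧
      lb A.card - lb T.card ≤ lb (A.filter (fun Z => f Z = y)).card := by
  have hT : T.Nonempty := by
    obtain ⟨Z, hZ⟩ := hA
    exact ⟨f Z, hf Z hZ⟩
  have h1 : A.card = ∑ y ∈ T, (A.filter (fun Z => f Z = y)).card :=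
    Finset.card_eq_sum_card_fiberwise hf
  obtain ⟨y, hy, hy'⟩ : ∃ y ∈ T, A.card ≤ T.card * (A.filter (fun Z => f Z = y)).card := by
    by_contra hcon
    push Not at hcon
    have h2 : ∑ y ∈ T, T.card * (A.filter (fun Z => f Z = y)).card < ∑ y ∈ T, A.card :=
      Finset.sum_lt_sum_of_nonempty hT hcon
    rw [← Finset.mul_sum, ← h1, Finset.sum_const, smul_eq_mul] at h2
    exact lt_irrefl _ h2
  have hpos : 0 < (A.filter (fun Z => f Z = y)).card := by
    rcases Nat.eq_zero_or_pos (A.filter (fun Z => f Z = y)).card with h0 | h0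
    · rw [h0, mul_zero] at hy'
      have := hA.card_pos
      omega
    · exact h0
  refine ⟨y, hy, Finset.card_pos.1 hpos, ?_⟩
  have h3 := lb_mono hA.card_pos hy'
  rw [lb_mul hT.card_pos hpos] at h3
  linarith

end Pool.Agent.Helper65.CG
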