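import Pool.Agent.Helper65.CG.GthmW

/-! The main inequality (G): the induction. -/

set_option autoImplicit false

namespace Pool.Agent.Helper65.CG

open scoped Classical
open Pool.Agent.Helper65.CliqueGame

variable {n q m : ℕ}

/-- the class pairs of the step between `t` and `t'` -/
noncomputable def EE (PP : Finset (Fin q)) (V : Fin q → Finset (Finset (Fin n))) (w t t' : ℝ) :
    Prs q :=
  (prs PP).filter (fun p => t + 5 * w < lb (V p.1).card + lb (V p.2).card ∧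
    lb (V p.1).card + lb (V p.2).card ≤ t')

theorem mem_prs {PP : Finset (Fin q)} {p : Fin q × Fin q} :
    p ∈ prs PP ↔ p.1 ∈ PP ∧ p.2 ∈ PP ∧ p.1 < p.2 := by
  unfold prs
  rw [Finset.mem_filter, Finset.mem_product, and_assoc]

theorem mem_Pt {PP : Finset (Fin q)} {V : Fin q → Finset (Finset (Fin n))} {t : ℝ} {P : Fin q} :
    P ∈ Pt PP V t ↔ P ∈ PP ∧ lb (V P).card ≤ t := by
  unfold Pt
  rw [Finset.mem_filter]

theorem Vt_of_mem {PP : Finset (Fin q)} {V : Fin q → Finset (Finset (Fin n))} {t : ℝ} {P : Fin q}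
    (h : P ∈ Pt PP V t) : Vt PP V t P = V P := by
  unfold Vt; rw [if_pos h]

theorem Vt_of_notMem {PP : Finset (Fin q)} {V : Fin q → Finset (Finset (Fin n))} {t : ℝ}
    {P : Fin q} (h : P ∉ Pt PP V t) : Vt PP V t P = {∅} := by
  unfold Vt; rw [if_neg h]

theorem Pt_mono {PP : Finset (Fin q)} {V : Fin q → Finset (Finset (Fin n))} {t t' : ℝ}
    (h : t ≤ t') : Pt PP V t ⊆ Pt PP V t' := by
  intro P hP
  rw [mem_Pt] at hP ⊢
  exact ⟨hP.1, hP.2.trans h⟩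

/-- complexity bound for one level -/
theorem lowY_card {PP : Finset (Fin q)} {V : Fin q → Finset (Finset (Fin n))} {d : ℕ} {t : ℝ}
    (hV : ∀ P ∈ PP, (V P).Nonempty)
    (hVd : ∀ P ∈ PP, ∀ v ∈ V P, v.card ≤ d) (Y : Prs q)
    (hY : ∀ p ∈ Y, p.1 ∈ Pt PP V t ∧ p.2 ∈ Pt PP V t ∧
      lb (V p.1).card + lb (V p.2).card ≤ t) :
    ((LowY (Vt PP V t) Y).card : ℝ) ≤ (q : ℝ) ^ 2 * d ^ 2 * 2 ^ t := by
  have h1 : ∀ p ∈ Y, ((((Vt PP V t p.1 ×ˢ Vt PP V t p.2).biUnion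
      (fun vw => join vw.1 vw.2)).card : ℕ) : ℝ) ≤ d ^ 2 * 2 ^ t := by
    intro p hp
    obtain ⟨h1, h2, h3⟩ := hY p hp
    rw [Vt_of_mem h1, Vt_of_mem h2]
    have hp1 := (mem_Pt.1 h1).1
    have hp2 := (mem_Pt.1 h2).1
    have h4 : ((V p.1 ×ˢ V p.2).biUnion (fun vw => join vw.1 vw.2)).card ≤
        (V p.1 ×ˢ V p.2).card * (d * d) := by
      refine Finset.card_biUnion_le_card_mul _ _ _ ?_
      intro vw hvw
      rw [Finset.mem_product] at hvw
      exact (card_join_le _ _).trans (Nat.mul_le_mul (hVd _ hp1 _ hvw.1) (hVd _ hp2 _ hvw.2))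
    rw [Finset.card_product] at h4
    have h5 : (((V p.1).card * (V p.2).card : ℕ) : ℝ) ≤ 2 ^ t := by
      refine le_rpow_of_lb (Nat.mul_pos (hV _ hp1).card_pos (hV _ hp2).card_pos) ?_
      rw [lb_mul (hV _ hp1).card_pos (hV _ hp2).card_pos]
      exact h3
    have h6 : ((((V p.1 ×ˢ V p.2).biUnion (fun vw => join vw.1 vw.2)).card : ℕ) : ℝ) ≤
        (((V p.1).card * (V p.2).card : ℕ) : ℝ) * (d * d) := by exact_mod_cast h4
    refine h6.trans ?_
    have : (0 : ℝ) ≤ (d : ℝ) * d := by positivity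
    nlinarith
  unfold LowY
  have h7 : (((Y.biUnion (fun p => (Vt PP V t p.1 ×ˢ Vt PP V t p.2).biUnion
      (fun vw => join vw.1 vw.2))).card : ℕ) : ℝ) ≤ ∑ p ∈ Y, (d : ℝ) ^ 2 * 2 ^ t := by
    refine le_trans ?_ (Finset.sum_le_sum h1)
    exact_mod_cast Finset.card_biUnion_le
  refine h7.trans ?_
  rw [Finset.sum_const, nsmul_eq_mul]
  have h8 : (Y.card : ℝ) ≤ (q : ℝ) ^ 2 := by
    have := Finset.card_le_univ Y
    rw [Fintype.card_prod, Fintype.card_fin] at this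
    have h9 : (Y.card : ℝ) ≤ (q : ℝ) * q := by exact_mod_cast this
    linarith [sq (q : ℝ)]
  have h10 : (0 : ℝ) ≤ (d : ℝ) ^ 2 * 2 ^ t := by positivity
  calc (Y.card : ℝ) * ((d : ℝ) ^ 2 * 2 ^ t) ≤ (q : ℝ) ^ 2 * ((d : ℝ) ^ 2 * 2 ^ t) :=
        mul_le_mul_of_nonneg_right h8 h10
    _ = _ := by ring

/-- the inductive statement -/
def IndG {Ω : Type} (ℓ : Sym2 (Fin n) → ℕ) (A : Finset Ω) (cv : Ω → Conf q n)
    (PP : Finset (Fin q)) (V : Fin q → Finset (Finset (Fin n))) (d J x : ℕ) (w H : ℝ)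
    (t : ℕ → ℝ) (g : ℕ → ℕ) (j : ℕ) : Prop :=
  ∃ lev : List (Lev q n), lev.length = j ∧
    (∀ l ∈ lev, ∀ p ∈ l.Y, p.1 ∈ Pt PP V (t j) ∧ p.2 ∈ Pt PP V (t j) ∧
      lb (V p.1).card + lb (V p.2).card ≤ t j) ∧
    (∀ l ∈ lev, (l.Ex.card : ℝ) ≤ (q * Lg n + q ^ 2 + 2) * (2 : ℝ) ^ (t j - 2 * w) ∧
      l.g ≤ (q * d) ^ 2) ∧
    lb (Fam ℓ (Vt PP V (t j)) lev x).card ≤
      ∑ P ∈ Pt PP V (t j), lb (V P).card - ∑ i ∈ Finset.range j, ((g i : ℝ) - H - 2) ∧
    2 * J * (A.filter (fun Z => rst (Pt PP V (t j)) (cv Z) ∉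
      Fam ℓ (Vt PP V (t j)) lev x)).card ≤ j * A.card

theorem indG_zero {Ω : Type} {ℓ : Sym2 (Fin n) → ℕ} {A : Finset Ω} {cv : Ω → Conf q n}
    {PP : Finset (Fin q)} {V : Fin q → Finset (Finset (Fin n))} {d J x : ℕ} {w H : ℝ}
    {t : ℕ → ℝ} {g : ℕ → ℕ} (h0 : ∀ P ∈ PP, t 0 < lb (V P).card) :
    IndG ℓ A cv PP V d J x w H t g 0 := by
  have hPt : Pt PP V (t 0) = ∅ := by
    rw [Finset.eq_empty_iff_forall_notMem]
    intro P hP
    rw [mem_Pt] at hP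
    exact absurd hP.2 (not_le.2 (h0 P hP.1))
  have hVt : Vt PP V (t 0) = fun _ => {∅} := by
    funext P
    rw [Vt_of_notMem]
    rw [hPt]
    exact Finset.notMem_empty _
  have hfam : Fam ℓ (Vt PP V (t 0)) [] x = {fun _ => ∅} := by
    ext Z
    unfold Fam
    rw [hVt]
    simp only [Finset.mem_filter, Finset.mem_univ, true_and, Finset.mem_singleton,
      List.not_mem_nil, false_imp_iff, implies_true, and_true]
    constructor
    · intro h; funext P; exact h P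
    · intro h P; rw [h]
  refine ⟨[], rfl, by simp, by simp, ?_, ?_⟩
  · rw [hfam, hPt]
    simp [lb_one]
  · have : (A.filter (fun Z => rst (Pt PP V (t 0)) (cv Z) ∉ Fam ℓ (Vt PP V (t 0)) [] x)) = ∅ := by
      rw [Finset.filter_eq_empty_iff]
      intro Z _
      rw [not_not, hfam, hPt, Finset.mem_singleton]
      funext P
      unfold rst
      rw [if_neg (Finset.notMem_empty _)]
    rw [this]
    simp

end Pool.Agent.Helper65.CG
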