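import Pool.Agent.Helper65.CG.GthmX

/-! The main inequality (G): the induction step. -/

set_option autoImplicit false

namespace Pool.Agent.Helper65.CG

open scoped Classical
open Pool.Agent.Helper65.CliqueGame

variable {n q m : ℕ}

theorem two_rpow_Lg (hn : 1 ≤ n) : (2 : ℝ) ^ (Lg n) = n := by
  unfold Lg
  exact Real.rpow_logb (by norm_num) (by norm_num) (by exact_mod_cast hn)

theorem num_a {q L : ℝ} (hq : 0 ≤ q) (hL : 0 ≤ L) :
    q * L + q ^ 2 + 2 ≤ (q + 2) ^ 2 * (L + 2) := by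
  have h : (q + 2) ^ 2 * (L + 2) - (q * L + q ^ 2 + 2) =
      q ^ 2 * L + q ^ 2 + 3 * (q * L) + 8 * q + 4 * L + 6 := by ring
  have h2 : 0 ≤ q ^ 2 * L + q ^ 2 + 3 * (q * L) + 8 * q + 4 * L + 6 := by positivity
  linarith

theorem num_b {q L D W T : ℝ} (hq : 0 ≤ q) (hL : 0 ≤ L) (hD : 1 ≤ D) (hT : 0 ≤ T) (hW1 : 1 ≤ W)
    (hW : 100 * (D * (q + 2) ^ 4 * (L + 2)) ≤ W) :
    (q * L + q ^ 2 + 2) * (T / (W * W)) ≤ (q + 2) ^ 4 * D * T := by
  have h1 := num_a hq hL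
  have h0 : (1 : ℝ) ≤ (q + 2) ^ 2 := one_le_pow₀ (by linarith)
  have h2 : (q + 2) ^ 2 * (L + 2) ≤ (q + 2) ^ 4 * (L + 2) := by
    have : (q + 2) ^ 4 = (q + 2) ^ 2 * (q + 2) ^ 2 := by ring
    rw [this]
    have h3 : (q + 2) ^ 2 ≤ (q + 2) ^ 2 * (q + 2) ^ 2 := le_mul_of_one_le_right (by positivity) h0
    exact mul_le_mul_of_nonneg_right h3 (by linarith)
  have h3 : (q + 2) ^ 4 * (L + 2) ≤ D * ((q + 2) ^ 4 * (L + 2)) :=
    le_mul_of_one_le_left (by positivity) hD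
  have h4 : (0 : ℝ) ≤ D * (q + 2) ^ 4 * (L + 2) := by positivity
  have h5 : q * L + q ^ 2 + 2 ≤ W := by
    have : D * ((q + 2) ^ 4 * (L + 2)) = D * (q + 2) ^ 4 * (L + 2) := by ring
    linarith
  have h6 : (1 : ℝ) ≤ (q + 2) ^ 4 * D := one_le_mul_of_one_le_of_one_le (one_le_pow₀ (by linarith)) hD
  have hW0 : (0 : ℝ) < W := by linarith
  have h7 : (q * L + q ^ 2 + 2) * (T / (W * W)) ≤ W * (T / (W * W)) :=
    mul_le_mul_of_nonneg_right h5 (by positivity)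
  have h8 : W * (T / (W * W)) = T / W := by field_simp
  have h9 : T / W ≤ T := div_le_self hT hW1
  have h10 : T ≤ (q + 2) ^ 4 * D * T := le_mul_of_one_le_left hT h6
  linarith

theorem indG_succ (hm : 1 ≤ m) (hn : 2 ≤ n) {ℓ : Sym2 (Fin n) → ℕ} (hℓ : Lab m ℓ) {d J : ℕ}
    (hd : 1 ≤ d) {c : ℝ} (hc : 0 ≤ c) (hB : Bet2 ℓ q d J c) {Ω : Type} {A : Finset Ω}
    (hA : A.Nonempty) {cv : Ω → Conf q n} {PP : Finset (Fin q)}
    {V : Fin q → Finset (Finset (Fin n))} {ξ η : ℝ} (hξ : 0 < ξ) (hη : 0 ≤ η)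
    (hreg : RegC A cv PP V ξ η) (hcv : ∀ Z ∈ A, ∀ P ∈ PP, cv Z P ∈ V P)
    (hup : ∀ P ∈ PP, lb (V P).card ≤ Lg n)
    (hVd : ∀ P ∈ PP, ∀ v ∈ V P, v.card ≤ d)
    (hVx : ∀ P ∈ PP, ∀ x : Fin n, ((V P).filter (fun v => x ∈ v)).card ≤ d)
    (halive : ∀ Z ∈ A, Alive ℓ (UU (cv Z) (prs PP)))
    {x Sh a : ℕ} (hSh : 1 ≤ Sh) (haSh : a < Sh) (hx1 : 1 ≤ x) (hxq : x ≤ q ^ 2) {w : ℝ}
    (hw : 0 < w) (hlo : ∀ P ∈ PP, 5 * w * Sh ≤ lb (V P).card)
    (hJ2 : (J : ℝ) * (5 * w * Sh) ≤ 3 * Lg n)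
    (hpr : η + 2 * q + lb q + Lg n + lb (2 * J) + 3 < ξ * (w / 2) * (x / (2 * q)))
    (hbig : 100 * ((m : ℝ) + 1) ^ 2 * ((d : ℝ) + 1) ^ 4 * ((q : ℝ) + 2) ^ 4 * (Lg n + 2) *
      (c + 1) ≤ (2 : ℝ) ^ w) (hw2 : (2 : ℝ) ^ w * 4 ≤ (n : ℝ) ^ (1 / 2 : ℝ))
    {t : ℕ → ℝ} (ht : ∀ j, t j = j * (5 * w * Sh) + 5 * w * a) {g : ℕ → ℕ}
    {H : ℝ} (hH : ∀ Y : Prs q, lb (Ych Y x).card ≤ H) {j : ℕ} (hj : j < J)
    (hgq : g j ≤ (q * d) ^ 2)
    (hg : ∀ Z ∈ A, ∀ X ⊆ EE PP V w (t j) (t (j + 1)), X.card ≤ x →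
      (g j : ℝ) ≤ ga ℓ (UU (cv Z) (EE PP V w (t j) (t (j + 1)) \ X)))
    (hInd : IndG ℓ A cv PP V d J x w H t g j) : IndG ℓ A cv PP V d J x w H t g (j + 1) := by
  obtain ⟨lev, hlen, hY, hEx, hcard, hfrac⟩ := hInd
  have hL1 : 1 ≤ Lg n := by
    unfold Lg
    rw [Real.le_logb_iff_rpow_le (by norm_num) (by exact_mod_cast (by omega : 0 < n))]
    rw [Real.rpow_one]
    exact_mod_cast hn
  have hn1 : (1 : ℝ) ≤ n := by exact_mod_cast (by omega : 1 ≤ n)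
  have hn2 : (2 : ℝ) ≤ n := by exact_mod_cast hn
  have hSh0 : (1 : ℝ) ≤ Sh := by exact_mod_cast hSh
  have hq0 : (0 : ℝ) ≤ q := Nat.cast_nonneg q
  have hd0 : (1 : ℝ) ≤ d := by exact_mod_cast hd
  have hm0 : (1 : ℝ) ≤ m := by exact_mod_cast hm
  have haS : 5 * w * a ≤ 5 * w * Sh :=
    mul_le_mul_of_nonneg_left (by exact_mod_cast haSh.le) (by positivity)
  have htj : 0 ≤ t j := by rw [ht]; positivity
  have htj3 : t j ≤ 3 * Lg n := by
    rw [ht]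
    have h1 : ((j : ℝ) + 1) * (5 * w * Sh) ≤ J * (5 * w * Sh) :=
      mul_le_mul_of_nonneg_right (by exact_mod_cast hj) (by positivity)
    have h2 : ((j : ℝ) + 1) * (5 * w * Sh) = j * (5 * w * Sh) + 5 * w * Sh := by ring
    linarith
  have htt : t (j + 1) = t j + 5 * w * Sh := by
    rw [ht, ht]; push_cast; ring
  have h5w : 5 * w ≤ 5 * w * Sh := le_mul_of_one_le_right (by positivity) hSh0
  have h2w1 : (1 : ℝ) ≤ (2 : ℝ) ^ w := Real.one_le_rpow (by norm_num) hw.le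
  have h2t1 : (1 : ℝ) ≤ (2 : ℝ) ^ (t j) := Real.one_le_rpow (by norm_num) htj
  -- consequences of `hbig`
  have hb0 : (1 : ℝ) ≤ ((m : ℝ) + 1) ^ 2 := one_le_pow₀ (by linarith)
  have hb1 : (1 : ℝ) ≤ ((d : ℝ) + 1) ^ 2 := one_le_pow₀ (by linarith)
  have hb2 : (1 : ℝ) ≤ ((q : ℝ) + 2) ^ 4 := one_le_pow₀ (by linarith)
  have hb3 : (1 : ℝ) ≤ Lg n + 2 := by linarith
  have hb4 : (1 : ℝ) ≤ c + 1 := by linarith
  have hb5 : 100 * (((d : ℝ) + 1) ^ 2 * ((q : ℝ) + 2) ^ 4 * (Lg n + 2)) ≤ (2 : ℝ) ^ w := by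
    refine le_trans ?_ hbig
    have e1 : (0 : ℝ) ≤ ((d : ℝ) + 1) ^ 2 * ((q : ℝ) + 2) ^ 4 * (Lg n + 2) := by positivity
    have e2 : (1 : ℝ) ≤ ((m : ℝ) + 1) ^ 2 * ((d : ℝ) + 1) ^ 2 * (c + 1) :=
      one_le_mul_of_one_le_of_one_le (one_le_mul_of_one_le_of_one_le hb0 hb1) hb4
    calc 100 * (((d : ℝ) + 1) ^ 2 * ((q : ℝ) + 2) ^ 4 * (Lg n + 2))
        = 100 * ((((d : ℝ) + 1) ^ 2 * ((q : ℝ) + 2) ^ 4 * (Lg n + 2)) * 1) := by ring
      _ ≤ 100 * ((((d : ℝ) + 1) ^ 2 * ((q : ℝ) + 2) ^ 4 * (Lg n + 2)) *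
          (((m : ℝ) + 1) ^ 2 * ((d : ℝ) + 1) ^ 2 * (c + 1))) := by gcongr
      _ = _ := by ring
  have hb6 : 100 * (((d : ℝ) + 1) ^ 2 * ((q : ℝ) + 2) ^ 4) ≤ (2 : ℝ) ^ w := by
    refine le_trans ?_ hb5
    have e1 : (0 : ℝ) ≤ ((d : ℝ) + 1) ^ 2 * ((q : ℝ) + 2) ^ 4 := by positivity
    have e2 : ((d : ℝ) + 1) ^ 2 * ((q : ℝ) + 2) ^ 4 ≤
        ((d : ℝ) + 1) ^ 2 * ((q : ℝ) + 2) ^ 4 * (Lg n + 2) := le_mul_of_one_le_right e1 hb3
    linarith
  set Bd : ℝ := ((q : ℝ) + 2) ^ 4 * ((d : ℝ) + 1) ^ 2 * (2 : ℝ) ^ (t j) with hBd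
  have hBd1 : 1 ≤ Bd := by
    rw [hBd]
    exact one_le_mul_of_one_le_of_one_le (one_le_mul_of_one_le_of_one_le hb2 hb1) h2t1
  set s : ℕ := ⌈Bd⌉₊ with hs
  have hsB : Bd ≤ s := Nat.le_ceil _
  have hsB2 : (s : ℝ) ≤ 2 * Bd := by
    have := Nat.ceil_lt_add_one (by linarith : 0 ≤ Bd)
    rw [← hs] at this
    linarith
  have hs1 : 1 ≤ s := by
    have : (1 : ℝ) ≤ s := hBd1.trans hsB
    exact_mod_cast this
  have h2t3 : (2 : ℝ) ^ (t j) ≤ (n : ℝ) ^ 3 := by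
    calc (2 : ℝ) ^ (t j) ≤ (2 : ℝ) ^ (3 * Lg n) := Real.rpow_le_rpow_of_exponent_le (by norm_num) htj3
      _ = ((2 : ℝ) ^ (Lg n)) ^ (3 : ℝ) := by rw [← Real.rpow_mul (by norm_num)]; ring_nf
      _ = (n : ℝ) ^ 3 := by
        rw [two_rpow_Lg (by omega)]
        exact_mod_cast Real.rpow_natCast (n : ℝ) 3
  have hnh : (n : ℝ) ^ (1 / 2 : ℝ) ≤ n := by
    calc (n : ℝ) ^ (1 / 2 : ℝ) ≤ (n : ℝ) ^ (1 : ℝ) :=
          Real.rpow_le_rpow_of_exponent_le hn1 (by norm_num)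
      _ = n := Real.rpow_one _
  have h2wn : (2 : ℝ) ^ w * 4 ≤ n := hw2.trans hnh
  have hn3 : (0 : ℝ) < (n : ℝ) ^ 3 := by positivity
  have hsn : s ≤ n ^ 4 := by
    have : (s : ℝ) ≤ (n : ℝ) ^ 4 := by
      calc (s : ℝ) ≤ 2 * Bd := hsB2
        _ = 2 * (((d : ℝ) + 1) ^ 2 * ((q : ℝ) + 2) ^ 4) * (2 : ℝ) ^ (t j) := by rw [hBd]; ring
        _ ≤ 2 * ((2 : ℝ) ^ w) * (n : ℝ) ^ 3 := by
            apply mul_le_mul _ h2t3 (by positivity) (by positivity)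
            have e1 : (0 : ℝ) ≤ ((d : ℝ) + 1) ^ 2 * ((q : ℝ) + 2) ^ 4 := by positivity
            linarith
        _ ≤ n * (n : ℝ) ^ 3 := by
            apply mul_le_mul_of_nonneg_right _ hn3.le
            linarith
        _ = (n : ℝ) ^ 4 := by ring
    exact_mod_cast this
  have hr : (2 : ℝ) ^ (t j + w) + 1 ≤ (n : ℝ) ^ 4 := by
    rw [Real.rpow_add (by norm_num)]
    have e1 : (2 : ℝ) ^ (t j) * (2 : ℝ) ^ w ≤ (n : ℝ) ^ 3 * (n / 4) := by
      apply mul_le_mul h2t3 (by linarith) (by positivity) (by positivity)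
    have e2 : (16 : ℝ) ≤ (n : ℝ) ^ 4 := by
      calc (16 : ℝ) = 2 ^ 4 := by norm_num
        _ ≤ (n : ℝ) ^ 4 := pow_le_pow_left₀ (by norm_num) hn2 4
    have e3 : (n : ℝ) ^ 3 * (n / 4) = (n : ℝ) ^ 4 / 4 := by ring
    linarith
  have hVne : ∀ P ∈ PP, (V P).Nonempty := by
    intro P hP
    obtain ⟨Z, hZ⟩ := hA
    exact ⟨_, hcv Z hZ P hP⟩
  have hcpx : Cpx (Vt PP V (t j)) lev x d J s := by
    refine ⟨by omega, hxq, ?_, ?_, ?_⟩
    · intro P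
      by_cases hP : P ∈ Pt PP V (t j)
      · rw [Vt_of_mem hP]
        have h1 := (mem_Pt.1 hP)
        have h2 := le_rpow_of_lb (hVne P h1.1).card_pos h1.2
        have h3 : ((V P).card : ℝ) ≤ s := by
          refine h2.trans (le_trans ?_ hsB)
          rw [hBd]
          exact le_mul_of_one_le_left (by positivity) (one_le_mul_of_one_le_of_one_le hb2 hb1)
        exact_mod_cast h3
      · rw [Vt_of_notMem hP]
        simpa using hs1
    · intro P v hv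
      by_cases hP : P ∈ Pt PP V (t j)
      · rw [Vt_of_mem hP] at hv
        exact hVd P (mem_Pt.1 hP).1 v hv
      · rw [Vt_of_notMem hP, Finset.mem_singleton] at hv
        rw [hv]; simp
    · intro l hl
      refine ⟨?_, ?_, (hEx l hl).2⟩
      · have h1 := lowY_card hVne hVd l.Y (hY l hl)
        have h2 : ((LowY (Vt PP V (t j)) l.Y).card : ℝ) ≤ s := by
          refine h1.trans (le_trans ?_ hsB)
          rw [hBd]
          apply mul_le_mul_of_nonneg_right _ (by positivity)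
          have e1 : (q : ℝ) ^ 2 ≤ ((q : ℝ) + 2) ^ 4 := by
            calc (q : ℝ) ^ 2 ≤ ((q : ℝ) + 2) ^ 2 := pow_le_pow_left₀ hq0 (by linarith) 2
              _ ≤ ((q : ℝ) + 2) ^ 4 := pow_le_pow_right₀ (by linarith) (by norm_num)
          have e2 : (d : ℝ) ^ 2 ≤ ((d : ℝ) + 1) ^ 2 := pow_le_pow_left₀ (by linarith) (by linarith) 2
          exact mul_le_mul e1 e2 (by positivity) (by positivity)
        exact_mod_cast h2
      · have h1 := (hEx l hl).1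
        have h2 : (l.Ex.card : ℝ) ≤ s := by
          refine h1.trans (le_trans ?_ hsB)
          rw [Real.rpow_sub (by norm_num), hBd]
          have e0 : (2 : ℝ) ^ (2 * w) = (2 : ℝ) ^ w * (2 : ℝ) ^ w := by
            rw [← Real.rpow_add (by norm_num)]; ring_nf
          rw [e0]
          exact num_b hq0 (by linarith) hb1 (by positivity) h2w1 hb5
        exact_mod_cast h2
  have hE : ∀ p ∈ EE PP V w (t j) (t (j + 1)), p ∈ prs PP ∧
      t j + 5 * w < lb (V p.1).card + lb (V p.2).card ∧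
      p.1 ∈ Pt PP V (t j) ∧ p.2 ∈ Pt PP V (t j) := by
    intro p hp
    unfold EE at hp
    rw [Finset.mem_filter] at hp
    obtain ⟨hp1, hp2, hp3⟩ := hp
    have h1 := mem_prs.1 hp1
    have h2 := hlo p.1 h1.1
    have h3 := hlo p.2 h1.2.1
    refine ⟨hp1, hp2, mem_Pt.2 ⟨h1.1, ?_⟩, mem_Pt.2 ⟨h1.2.1, ?_⟩⟩ <;> linarith
  have hJ1 : 1 ≤ J := by omega
  obtain ⟨Ex, hEx1, hEx2, hEx3⟩ := Gstep hm hn hℓ hd hc hB hA hξ hη hreg hcv hup hVd hVx halive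
    (x := x) (s := s) (w := w) (t := t j) hw htj
    (lev := lev) (fun l hl p hp => ⟨(hY l hl p hp).1, (hY l hl p hp).2.1⟩) hcpx hs1 hsn
    (by rw [hBd] at hsB2; linarith) hr (EE PP V w (t j) (t (j + 1))) hE (g := g j) hg
    (N := 2 * J) (by omega) (by exact hpr) (by
      have h1 : 0 < A.card := hA.card_pos
      have h2 : j * A.card < (2 * J - 1) * A.card := Nat.mul_lt_mul_of_pos_right (by omega) h1
      calc _ = 2 * J * (A.filter (fun Z => rst (Pt PP V (t j)) (cv Z) ∉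
            Fam ℓ (Vt PP V (t j)) lev x)).card := by ring
        _ ≤ j * A.card := hfrac
        _ < (2 * J - 1) * A.card := h2
        _ = _ := by ring) hbig
  have hlev' : ∀ l ∈ (⟨EE PP V w (t j) (t (j + 1)), Ex, g j⟩ : Lev q n) :: lev, ∀ p ∈ l.Y,
      p.1 ∈ Pt PP V (t j) ∧ p.2 ∈ Pt PP V (t j) := by
    intro l hl p hp
    rcases List.mem_cons.1 hl with rfl | hl
    · exact ⟨(hE p hp).2.2.1, (hE p hp).2.2.2⟩
    · exact ⟨(hY l hl p hp).1, (hY l hl p hp).2.1⟩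
  have htle : t j ≤ t (j + 1) := by
    rw [htt]
    have : 0 ≤ 5 * w * Sh := by positivity
    linarith
  -- counting
  have hcnt : 2 * J * (A.filter (fun Z => rst (Pt PP V (t (j + 1))) (cv Z) ∉
      Fam ℓ (Vt PP V (t (j + 1))) (⟨EE PP V w (t j) (t (j + 1)), Ex, g j⟩ :: lev) x)).card ≤
      (j + 1) * A.card := by
    have h1 : A.filter (fun Z => rst (Pt PP V (t (j + 1))) (cv Z) ∉
        Fam ℓ (Vt PP V (t (j + 1))) (⟨EE PP V w (t j) (t (j + 1)), Ex, g j⟩ :: lev) x) ⊆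
        (A.filter (fun Z => rst (Pt PP V (t j)) (cv Z) ∉ Fam ℓ (Vt PP V (t j)) lev x)) ∪
        (A.filter (fun Z => rst (Pt PP V (t j)) (cv Z) ∈ Fam ℓ (Vt PP V (t j)) lev x ∧
          rst (Pt PP V (t j)) (cv Z) ∉ Fam ℓ (Vt PP V (t j))
            (⟨EE PP V w (t j) (t (j + 1)), Ex, g j⟩ :: lev) x)) := by
      intro Z hZ
      rw [Finset.mem_filter] at hZ
      rw [Finset.mem_union, Finset.mem_filter, Finset.mem_filter]
      by_cases h : rst (Pt PP V (t j)) (cv Z) ∈ Fam ℓ (Vt PP V (t j)) lev x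
      · right
        refine ⟨hZ.1, h, fun h' => hZ.2 ?_⟩
        exact fam_mem htle _ hlev' x (cv Z) (hcv Z hZ.1) h'
      · left; exact ⟨hZ.1, h⟩
    have h2 := (Finset.card_le_card h1).trans (Finset.card_union_le _ _)
    calc _ ≤ 2 * J * (_ + _) := Nat.mul_le_mul_left _ h2
      _ = _ := Nat.mul_add _ _ _
      _ ≤ j * A.card + A.card := Nat.add_le_add hfrac hEx3
      _ = _ := by ring
  refine ⟨⟨EE PP V w (t j) (t (j + 1)), Ex, g j⟩ :: lev, by simp [hlen], ?_, ?_, ?_, ?_⟩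
  · intro l hl p hp
    rcases List.mem_cons.1 hl with rfl | hl
    · refine ⟨Pt_mono htle (hE p hp).2.2.1, Pt_mono htle (hE p hp).2.2.2, ?_⟩
      unfold EE at hp
      exact (Finset.mem_filter.1 hp).2.2
    · obtain ⟨h1, h2, h3⟩ := hY l hl p hp
      exact ⟨Pt_mono htle h1, Pt_mono htle h2, h3.trans htle⟩
  · intro l hl
    have e0 : (0 : ℝ) ≤ q * Lg n + q ^ 2 + 2 := by positivity
    rcases List.mem_cons.1 hl with rfl | hl
    · refine ⟨hEx1.trans ?_, hgq⟩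
      apply mul_le_mul_of_nonneg_left _ e0
      apply Real.rpow_le_rpow_of_exponent_le (by norm_num)
      rw [htt]; linarith
    · refine ⟨(hEx l hl).1.trans ?_, (hEx l hl).2⟩
      apply mul_le_mul_of_nonneg_left _ e0
      apply Real.rpow_le_rpow_of_exponent_le (by norm_num)
      linarith
  · have hne : (Fam ℓ (Vt PP V (t (j + 1))) (⟨EE PP V w (t j) (t (j + 1)), Ex, g j⟩ :: lev)
        x).Nonempty := by
      by_contra hcon
      rw [Finset.not_nonempty_iff_eq_empty] at hcon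
      rw [hcon] at hcnt
      have h1 : (A.filter (fun Z => rst (Pt PP V (t (j + 1))) (cv Z) ∉
          (∅ : Finset (Conf q n)))) = A := by
        apply Finset.filter_true_of_mem
        intro Z _
        exact Finset.notMem_empty _
      rw [h1] at hcnt
      have h2 : 0 < A.card := hA.card_pos
      have h3 := Nat.le_of_mul_le_mul_right hcnt h2
      omega
    have h1 := fam_ext hVne htle _ hlev' x hne
    have h2 := Finset.sum_sdiff (f := fun P => lb (V P).card)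
      (Pt_mono (PP := PP) (V := V) htle)
    rw [← h2, Finset.sum_range_succ]
    have h3 := hH (EE PP V w (t j) (t (j + 1)))
    linarith
  · exact_mod_cast hcnt

end Pool.Agent.Helper65.CG
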