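import Pool.Agent.Helper65.CG.GthmY

/-! The main inequality (G). -/

set_option autoImplicit false

namespace Pool.Agent.Helper65.CG

open scoped Classical
open Pool.Agent.Helper65.CliqueGame

variable {n q m : ℕ}

theorem indG_all {Ω : Type} {ℓ : Sym2 (Fin n) → ℕ} {A : Finset Ω} {cv : Ω → Conf q n}
    {PP : Finset (Fin q)} {V : Fin q → Finset (Finset (Fin n))} {d J x : ℕ} {w H : ℝ}
    {t : ℕ → ℝ} {g : ℕ → ℕ} (h0 : IndG ℓ A cv PP V d J x w H t g 0)
    (hs : ∀ j, j < J → IndG ℓ A cv PP V d J x w H t g j → IndG ℓ A cv PP V d J x w H t g (j + 1)) :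
    IndG ℓ A cv PP V d J x w H t g J := by
  have key : ∀ j, j ≤ J → IndG ℓ A cv PP V d J x w H t g j := by
    intro j
    induction j with
    | zero => intro _; exact h0
    | succ j ih => intro hj; exact hs j (by omega) (ih (by omega))
  exact key J le_rfl

theorem ga_sdiff_le (ℓ : Sym2 (Fin n) → ℕ) (Z : Conf q n) (E X : Prs q) (hX : X ⊆ E) {d x : ℕ}
    (hd : ∀ p ∈ E, (Z p.1).card ≤ d ∧ (Z p.2).card ≤ d) (hx : X.card ≤ x) :
    ga ℓ (UU Z E) ≤ ga ℓ (UU Z (E \ X)) + x * d ^ 2 := by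
  have h1 : UU Z E = UU Z (E \ X) ∪ UU Z X := by
    rw [← UU_union, Finset.sdiff_union_of_subset hX]
  rw [h1]
  refine (ga_union_le ℓ _ _).trans ?_
  have h2 : ga ℓ (UU Z X) ≤ x * d ^ 2 := by
    refine (ga_UU_le ℓ Z X).trans ?_
    have h3 : ∑ p ∈ X, (Z p.1).card * (Z p.2).card ≤ ∑ p ∈ X, d * d :=
      Finset.sum_le_sum fun p hp => Nat.mul_le_mul (hd p (hX hp)).1 (hd p (hX hp)).2
    rw [Finset.sum_const, smul_eq_mul] at h3
    have h4 : ∑ p ∈ X, (Z p.1).card * (Z p.2).card ≤ x * (d * d) :=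
      h3.trans (Nat.mul_le_mul_right _ hx)
    have h5 : ((∑ p ∈ X, (Z p.1).card * (Z p.2).card : ℕ) : ℝ) ≤ ((x * (d * d) : ℕ) : ℝ) := by
      exact_mod_cast h4
    refine h5.trans (le_of_eq ?_)
    push_cast
    ring
  linarith

theorem Gthm (hm : 1 ≤ m) (hn : 2 ≤ n) {ℓ : Sym2 (Fin n) → ℕ} (hℓ : Lab m ℓ) {d J : ℕ}
    (hd : 1 ≤ d) {c : ℝ} (hc : 0 ≤ c) (hB : Bet2 ℓ q d J c) {Ω : Type} {A : Finset Ω}
    (hA : A.Nonempty) {cv : Ω → Conf q n} {PP : Finset (Fin q)}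
    {V : Fin q → Finset (Finset (Fin n))} {ξ η : ℝ} (hξ : 0 < ξ) (hη : 0 ≤ η)
    (hreg : RegC A cv PP V ξ η) (hcv : ∀ Z ∈ A, ∀ P ∈ PP, cv Z P ∈ V P)
    (hup : ∀ P ∈ PP, lb (V P).card ≤ Lg n)
    (hVd : ∀ P ∈ PP, ∀ v ∈ V P, v.card ≤ d)
    (hVx : ∀ P ∈ PP, ∀ x : Fin n, ((V P).filter (fun v => x ∈ v)).card ≤ d)
    (halive : ∀ Z ∈ A, Alive ℓ (UU (cv Z) (prs PP)))
    (k : Fin q → ℕ) (hk : ∀ Z ∈ A, ∀ P ∈ PP, (cv Z P).card = k P) (hkq : ∑ P ∈ PP, k P ≤ q)
    {x Sh : ℕ} (hSh : 1 ≤ Sh) (hx1 : 1 ≤ x) (hxq : x ≤ q ^ 2) {w : ℝ} (hw : 0 < w)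
    (hlo : ∀ P ∈ PP, 5 * w * Sh ≤ lb (V P).card)
    (hJ1 : 2 * Lg n ≤ J * (5 * w * Sh)) (hJ2 : (J : ℝ) * (5 * w * Sh) ≤ 3 * Lg n)
    (hpr : η + J * lb ((q * d) ^ 2 + 1) + 2 * q + lb q + Lg n + lb (2 * J) + 3 <
      ξ * (w / 2) * (x / (2 * q)))
    (hbig : 100 * ((m : ℝ) + 1) ^ 2 * ((d : ℝ) + 1) ^ 4 * ((q : ℝ) + 2) ^ 4 * (Lg n + 2) *
      (c + 1) ≤ (2 : ℝ) ^ w) (hw2 : (2 : ℝ) ^ w * 4 ≤ (n : ℝ) ^ (1 / 2 : ℝ))
    {G₀ : ℝ} (hG : ∀ Z ∈ A, G₀ ≤ ga ℓ (UU (cv Z) (prs PP))) :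
    G₀ ≤ ∑ P ∈ PP, lb (V P).card + (q : ℝ) ^ 2 / (2 * Sh) +
      J * (x * d ^ 2 + x * Real.logb 2 (3 * (q : ℝ) ^ 2 / x) + 3) := by
  have hL1 : 1 ≤ Lg n := by
    unfold Lg
    rw [Real.le_logb_iff_rpow_le (by norm_num) (by exact_mod_cast (by omega : 0 < n))]
    rw [Real.rpow_one]
    exact_mod_cast hn
  have hSh0 : (1 : ℝ) ≤ Sh := by exact_mod_cast hSh
  -- the shift
  obtain ⟨a, ha, hwin⟩ := window (prs PP) (fun p => lb (V p.1).card + lb (V p.2).card)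
    (fun p => ((k p.1 * k p.2 : ℕ) : ℝ)) (fun p _ => Nat.cast_nonneg _) hSh hw
  set W : Prs q := (prs PP).filter (fun p => ∃ j : ℕ, j * (5 * w * Sh) + 5 * w * a <
      lb (V p.1).card + lb (V p.2).card ∧
      lb (V p.1).card + lb (V p.2).card ≤ j * (5 * w * Sh) + 5 * w * (a + 1)) with hWdef
  set t : ℕ → ℝ := fun j => j * (5 * w * Sh) + 5 * w * a with ht
  set E : ℕ → Prs q := fun j => EE PP V w (t j) (t (j + 1)) with hE
  have haS : 5 * w * a ≤ 5 * w * Sh :=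
    mul_le_mul_of_nonneg_left (by exact_mod_cast ha.le) (by positivity)
  have haS' : 5 * w * ((a : ℝ) + 1) ≤ 5 * w * Sh :=
    mul_le_mul_of_nonneg_left (by exact_mod_cast ha) (by positivity)
  -- the gains are constant on a subfamily
  have hcard_d : ∀ Z ∈ A, ∀ P ∈ PP, (cv Z P).card ≤ d := fun Z hZ P hP =>
    hVd P hP _ (hcv Z hZ P hP)
  have hgafl : ∀ Z ∈ A, ∀ Y ⊆ prs PP, ⌊ga ℓ (UU (cv Z) Y)⌋₊ ≤ (q * d) ^ 2 := by
    intro Z hZ Y hY
    apply Nat.floor_le_of_le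
    refine (ga_UU_le ℓ (cv Z) Y).trans ?_
    have h1 : ∑ p ∈ Y, (cv Z p.1).card * (cv Z p.2).card ≤ ∑ p ∈ Y, d * d := by
      apply Finset.sum_le_sum
      intro p hp
      have := mem_prs.1 (hY hp)
      exact Nat.mul_le_mul (hcard_d Z hZ _ this.1) (hcard_d Z hZ _ this.2.1)
    rw [Finset.sum_const, smul_eq_mul] at h1
    have h2 : Y.card ≤ q * q := by
      have := Finset.card_le_univ Y
      rwa [Fintype.card_prod, Fintype.card_fin] at this
    have h3 : ∑ p ∈ Y, (cv Z p.1).card * (cv Z p.2).card ≤ (q * d) ^ 2 := by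
      calc _ ≤ Y.card * (d * d) := h1
        _ ≤ q * q * (d * d) := Nat.mul_le_mul_right _ h2
        _ = (q * d) ^ 2 := by ring
    exact_mod_cast h3
  have hEsub : ∀ j, E j ⊆ prs PP := by
    intro j
    rw [hE]
    unfold EE
    exact Finset.filter_subset _ _
  obtain ⟨γ, hγT, hA'ne, hA'lb⟩ := pigeon A hA
    (fun Z => fun j : Fin J => ⌊ga ℓ (UU (cv Z) (E j))⌋₊)
    (Fintype.piFinset fun _ : Fin J => Finset.range ((q * d) ^ 2 + 1)) (by
      intro Z hZ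
      rw [Fintype.mem_piFinset]
      intro j
      rw [Finset.mem_range]
      exact Nat.lt_succ_of_le (hgafl Z hZ _ (hEsub _)))
  set A' := A.filter (fun Z => (fun j : Fin J => ⌊ga ℓ (UU (cv Z) (E j))⌋₊) = γ) with hA'
  have hTc : (Fintype.piFinset fun _ : Fin J => Finset.range ((q * d) ^ 2 + 1)).card =
      ((q * d) ^ 2 + 1) ^ J := by
    rw [Fintype.card_piFinset]
    simp
  rw [hTc, lb_pow] at hA'lb
  have hAA : A' ⊆ A := Finset.filter_subset _ _
  have hreg' := regC_sub hreg hAA hA'lb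
  have hlbJ : 0 ≤ (J : ℝ) * lb ((q * d) ^ 2 + 1) := mul_nonneg (Nat.cast_nonneg _) (lb_nonneg _)
  -- the thresholds
  set g : ℕ → ℕ := fun j => if h : j < J then γ ⟨j, h⟩ - x * d ^ 2 else 0 with hg
  set H : ℝ := x * Real.logb 2 (3 * (q : ℝ) ^ 2 / x) with hH
  have hγga : ∀ Z ∈ A', ∀ j (h : j < J), (γ ⟨j, h⟩ : ℝ) ≤ ga ℓ (UU (cv Z) (E j)) ∧
      ga ℓ (UU (cv Z) (E j)) ≤ γ ⟨j, h⟩ + 1 := by
    intro Z hZ j h
    rw [hA', Finset.mem_filter] at hZ
    have h1 := congrFun hZ.2 ⟨j, h⟩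
    simp only at h1
    rw [← h1]
    exact ⟨Nat.floor_le (ga_nonneg ℓ _), (Nat.lt_floor_add_one _).le⟩
  have hind : IndG ℓ A' cv PP V d J x w H t g J := by
    apply indG_all
    · apply indG_zero
      intro P hP
      have h1 := hlo P hP
      have h2 : t 0 = 5 * w * a := by rw [ht]; simp
      rw [h2]
      have h3 : 5 * w * ((a : ℝ) + 1) = 5 * w * a + 5 * w := by ring
      linarith
    · intro j hj hInd
      refine indG_succ hm hn hℓ hd hc hB hA'ne hξ (add_nonneg hη hlbJ) hreg'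
        (fun Z hZ => hcv Z (hAA hZ)) hup hVd hVx (fun Z hZ => halive Z (hAA hZ)) hSh ha hx1 hxq hw
        hlo hJ2 hpr hbig hw2 (t := t) (fun j => rfl) (fun Y => ych_card Y hx1 hxq) hj ?_ ?_ hInd
      · rw [hg]
        simp only [hj, dif_pos]
        refine (Nat.sub_le _ _).trans ?_
        obtain ⟨Z, hZ⟩ := hA'ne
        rw [hA', Finset.mem_filter] at hZ
        have h1 := congrFun hZ.2 ⟨j, hj⟩
        simp only at h1
        rw [← h1]
        exact hgafl Z hZ.1 _ (hEsub _)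
      · intro Z hZ X hX hXx
        rw [hg]
        simp only [hj, dif_pos]
        have h1 := (hγga Z hZ j hj).1
        have h2 := ga_sdiff_le ℓ (cv Z) (E j) X hX (d := d) (x := x) (fun p hp => by
          have := mem_prs.1 (hEsub j hp)
          exact ⟨hcard_d Z (hAA hZ) _ this.1, hcard_d Z (hAA hZ) _ this.2.1⟩) hXx
        have h3 := ga_nonneg ℓ (UU (cv Z) (E j \ X))
        rcases le_total (x * d ^ 2) (γ ⟨j, hj⟩) with h | h
        · rw [Nat.cast_sub h]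
          push_cast
          have : ga ℓ (UU (cv Z) (E j \ X)) = ga ℓ (UU (cv Z) (EE PP V w (t j) (t (j + 1)) \ X)) :=
            rfl
          linarith
        · rw [Nat.sub_eq_zero_of_le h]
          simpa using h3
  obtain ⟨lev, hlen, hY, hEx, hcard, hfrac⟩ := hind
  have hJ0 : 1 ≤ J := by
    rcases Nat.eq_zero_or_pos J with h | h
    · rw [h] at hJ1
      simp only [Nat.cast_zero, zero_mul] at hJ1
      linarith
    · exact h
  -- the family is nonempty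
  obtain ⟨Z, hZ⟩ : ∃ Z ∈ A', rst (Pt PP V (t J)) (cv Z) ∈ Fam ℓ (Vt PP V (t J)) lev x := by
    by_contra hcon
    push Not at hcon
    rw [Finset.filter_true_of_mem hcon] at hfrac
    have h2 : 0 < A'.card := hA'ne.card_pos
    have h3 := Nat.le_of_mul_le_mul_right hfrac h2
    omega
  have hfam : 0 ≤ lb (Fam ℓ (Vt PP V (t J)) lev x).card := lb_nonneg _
  have hPt : Pt PP V (t J) = PP := by
    apply Finset.filter_true_of_mem
    intro P hP
    have h1 := hup P hP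
    have h2 : t J = J * (5 * w * Sh) + 5 * w * a := rfl
    have h3 : 0 ≤ 5 * w * (a : ℝ) := by positivity
    linarith
  rw [hPt] at hcard
  -- cover the pairs
  have hcover : prs PP ⊆ (Finset.range J).biUnion E ∪ W := by
    intro p hp
    have hp' := mem_prs.1 hp
    set f := lb (V p.1).card + lb (V p.2).card with hf
    have hf1 : t 0 < f := by
      have h1 := hlo p.1 hp'.1
      have h2 := hlo p.2 hp'.2.1
      have h3 : t 0 = 5 * w * a := by rw [ht]; simp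
      have h4 : 0 < 5 * w * (Sh : ℝ) := by positivity
      rw [h3]
      linarith
    have hf2 : f ≤ t J := by
      have h1 := hup p.1 hp'.1
      have h2 := hup p.2 hp'.2.1
      have h3 : t J = J * (5 * w * Sh) + 5 * w * a := rfl
      have h4 : 0 ≤ 5 * w * (a : ℝ) := by positivity
      linarith
    -- the last `j` with `t j < f`
    have hex : ∃ j, j < J ∧ t j < f ∧ f ≤ t (j + 1) := by
      by_contra hcon
      push Not at hcon
      have : ∀ j, j ≤ J → t j < f := by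
        intro j
        induction j with
        | zero => intro _; exact hf1
        | succ j ih => intro hj; exact hcon j (by omega) (ih (by omega))
      exact absurd hf2 (not_le.2 (this J le_rfl))
    obtain ⟨j, hj, hj1, hj2⟩ := hex
    rw [Finset.mem_union, Finset.mem_biUnion]
    by_cases h : t j + 5 * w < f
    · left
      refine ⟨j, Finset.mem_range.2 hj, ?_⟩
      rw [hE]
      unfold EE
      rw [Finset.mem_filter]
      exact ⟨hp, h, hj2⟩
    · right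
      rw [hWdef, Finset.mem_filter]
      refine ⟨hp, j, hj1, ?_⟩
      have h3 : t j = j * (5 * w * Sh) + 5 * w * a := rfl
      have h4 : 5 * w * ((a : ℝ) + 1) = 5 * w * a + 5 * w := by ring
      rw [h4]
      linarith [not_lt.1 h]
  -- the window
  have hWga : ga ℓ (UU (cv Z) W) ≤ (q : ℝ) ^ 2 / (2 * Sh) := by
    have h1 := ga_UU_le ℓ (cv Z) W
    have h2 : ((∑ p ∈ W, (cv Z p.1).card * (cv Z p.2).card : ℕ) : ℝ) =
        ∑ p ∈ W, ((k p.1 * k p.2 : ℕ) : ℝ) := by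
      push_cast
      apply Finset.sum_congr rfl
      intro p hp
      have := mem_prs.1 ((Finset.mem_filter.1 hp).1)
      rw [hk Z (hAA hZ.1) _ this.1, hk Z (hAA hZ.1) _ this.2.1]
    rw [h2] at h1
    have h3 := sum_prs_le PP k hkq
    have h4 : (Sh : ℝ) * ∑ p ∈ W, ((k p.1 * k p.2 : ℕ) : ℝ) ≤ (q : ℝ) ^ 2 / 2 := hwin.trans h3
    refine h1.trans ?_
    rw [le_div_iff₀ (by positivity)]
    linarith
  -- sum up
  have hsum : ga ℓ (UU (cv Z) (prs PP)) ≤
      ∑ i ∈ Finset.range J, ga ℓ (UU (cv Z) (E i)) + ga ℓ (UU (cv Z) W) := by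
    refine (ga_mono ℓ (UU_mono (cv Z) hcover)).trans ?_
    rw [UU_union]
    refine (ga_union_le ℓ _ _).trans ?_
    have := ga_UU_range ℓ (cv Z) E J
    linarith
  have hterm : ∑ i ∈ Finset.range J, ga ℓ (UU (cv Z) (E i)) ≤
      ∑ i ∈ Finset.range J, (((g i : ℝ) - H - 2) + (x * d ^ 2 + H + 3)) := by
    apply Finset.sum_le_sum
    intro i hi
    have hi' := Finset.mem_range.1 hi
    have h1 := (hγga Z hZ.1 i hi').2
    have h2 : ((γ ⟨i, hi'⟩ : ℕ) : ℝ) ≤ g i + x * d ^ 2 := by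
      rw [hg]
      simp only [hi', dif_pos]
      have : γ ⟨i, hi'⟩ ≤ (γ ⟨i, hi'⟩ - x * d ^ 2) + x * d ^ 2 := by omega
      exact_mod_cast this
    linarith
  rw [Finset.sum_add_distrib, Finset.sum_const, Finset.card_range, nsmul_eq_mul] at hterm
  have hG' := hG Z (hAA hZ.1)
  have hfin : (J : ℝ) * (x * d ^ 2 + H + 3) = J * (x * d ^ 2 +
    x * Real.logb 2 (3 * (q : ℝ) ^ 2 / x) + 3) := rfl
  linarith

end Pool.Agent.Helper65.CG
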