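import Pool.Agent.Helper65.CG.Defs2

/-! All polynomial quantities are eventually at most `2 ^ (θ L)`. -/

set_option autoImplicit false

namespace Pool.Agent.Helper65.CG

open scoped Classical
open Pool.Agent.Helper65.CliqueGame
open Filter

variable {n q m : ℕ}

theorem ev_poly (B : ℝ) (k : ℕ) {θ : ℝ} (hθ : 0 < θ) :
    ∀ᶠ L : ℝ in atTop, B * L ^ k ≤ (2 : ℝ) ^ (θ * L) := by
  have hb : 0 < θ * Real.log 2 := mul_pos hθ (Real.log_pos (by norm_num))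
  have h1 : Tendsto (fun L : ℝ => L ^ k / Real.exp ((θ * Real.log 2) * L)) atTop (nhds 0) := by
    have h2 := Real.tendsto_pow_mul_exp_neg_atTop_nhds_zero k
    have h3 := (h2.comp (tendsto_id.const_mul_atTop hb)).const_mul ((θ * Real.log 2) ^ k)⁻¹
    rw [mul_zero] at h3
    refine h3.congr ?_
    intro L
    simp only [Function.comp, id]
    have h4 : (θ * Real.log 2) ^ k ≠ 0 := (pow_pos hb k).ne'
    rw [mul_pow (θ * Real.log 2) L k, Real.exp_neg, ← mul_assoc, ← mul_assoc,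
      inv_mul_cancel₀ h4, one_mul, div_eq_mul_inv]
  have h2 := h1.const_mul B
  rw [mul_zero] at h2
  filter_upwards [h2.eventually_lt_const (show (0 : ℝ) < 1 by norm_num)] with L hL
  have h3 : (2 : ℝ) ^ (θ * L) = Real.exp ((θ * Real.log 2) * L) := by
    rw [Real.rpow_def_of_pos (by norm_num)]
    congr 1
    ring
  rw [h3]
  have h4 : B * (L ^ k / Real.exp ((θ * Real.log 2) * L)) =
      B * L ^ k / Real.exp ((θ * Real.log 2) * L) := by ring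
  rw [h4, div_lt_one (Real.exp_pos _)] at hL
  exact hL.le

theorem log_le {y B L θ : ℝ} {k : ℕ} (hθ : 0 ≤ θ * L) (hy0 : 0 ≤ y) (hy : y ≤ B * L ^ k)
    (h : B * L ^ k ≤ (2 : ℝ) ^ (θ * L)) : Real.logb 2 y ≤ θ * L := by
  rcases eq_or_lt_of_le hy0 with h0 | h0
  · rw [← h0]; simpa using hθ
  · rw [Real.logb_le_iff_le_rpow (by norm_num) h0]
    exact hy.trans h

theorem logs (m d J : ℕ) {C₀ θ ω : ℝ} (hC₀ : 1 ≤ C₀) (hθ : 0 < θ) (hω : 0 < ω) :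
    ∃ n₀ : ℕ, ∀ n, n₀ ≤ n → ∀ q : ℕ, Lg n ≤ q → (q : ℝ) ≤ C₀ * Lg n →
      2 ≤ n ∧ 1 ≤ θ * Lg n ∧ 2 * ((m : ℝ) + 3) ≤ (2 : ℝ) ^ (θ * Lg n) ∧
      Real.logb 2 ((q : ℝ) + 1) ≤ θ * Lg n ∧
      Real.logb 2 (q * Lg n + 12 * (Lg n + m + 4) + 8) ≤ θ * Lg n ∧
      Real.logb 2 (2 * m * (q : ℝ) ^ 2 * (q + 1) + 1) ≤ θ * Lg n ∧
      lb d ≤ θ * Lg n ∧ lb q ≤ θ * Lg n ∧
      Real.logb 2 (2 * m * (q : ℝ) ^ 3 + 1) ≤ θ * Lg n ∧
      lb ((q * d) ^ 2 + 1) ≤ θ * Lg n ∧ lb (2 * J) ≤ θ * Lg n ∧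
      100 * ((m : ℝ) + 1) ^ 2 * ((d : ℝ) + 1) ^ 4 * ((q : ℝ) + 2) ^ 4 * (Lg n + 2) *
        (cB m q d J n + 1) ≤ (2 : ℝ) ^ (ω * Lg n) := by
  have hLg : Tendsto (fun n : ℕ => Lg n) atTop atTop := by
    unfold Lg
    exact (Real.tendsto_logb_atTop (by norm_num)).comp tendsto_natCast_atTop_atTop
  have hev : ∀ᶠ L : ℝ in atTop, (1 ≤ L ∧ 1 ≤ θ * L) ∧
      (2 * ((m : ℝ) + 3) * L ^ 0 ≤ (2 : ℝ) ^ (θ * L) ∧
      (C₀ + 1) * L ^ 1 ≤ (2 : ℝ) ^ (θ * L) ∧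
      (C₀ + 12 + 12 * (m + 4) + 8) * L ^ 2 ≤ (2 : ℝ) ^ (θ * L) ∧
      (2 * m * C₀ ^ 2 * (C₀ + 1) + 1) * L ^ 3 ≤ (2 : ℝ) ^ (θ * L) ∧
      (d : ℝ) * L ^ 0 ≤ (2 : ℝ) ^ (θ * L) ∧
      C₀ * L ^ 1 ≤ (2 : ℝ) ^ (θ * L) ∧
      (2 * m * C₀ ^ 3 + 1) * L ^ 3 ≤ (2 : ℝ) ^ (θ * L) ∧
      ((C₀ * d) ^ 2 + 1) * L ^ 2 ≤ (2 : ℝ) ^ (θ * L) ∧
      (2 * J : ℝ) * L ^ 0 ≤ (2 : ℝ) ^ (θ * L) ∧
      (100 * ((m : ℝ) + 1) ^ 2 * ((d : ℝ) + 1) ^ 4 * (C₀ + 2) ^ 4 * 3 *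
        (60 * (m + 1) * (d + 1) * (J + 1) * (C₀ + 1) ^ 3 * 2 + 1)) * L ^ 9 ≤
        (2 : ℝ) ^ (ω * L)) := by
    refine ((eventually_ge_atTop 1).and ?_).and ((ev_poly _ _ hθ).and ((ev_poly _ _ hθ).and
      ((ev_poly _ _ hθ).and ((ev_poly _ _ hθ).and ((ev_poly _ _ hθ).and ((ev_poly _ _ hθ).and
      ((ev_poly _ _ hθ).and ((ev_poly _ _ hθ).and ((ev_poly _ _ hθ).and
      (ev_poly _ _ hω))))))))))
    exact (tendsto_id.const_mul_atTop hθ).eventually_ge_atTop 1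
  obtain ⟨n₀, hn₀⟩ := eventually_atTop.1 (hLg.eventually hev)
  refine ⟨max n₀ 2, fun n hn q hqL hqC => ?_⟩
  obtain ⟨⟨hL1, hθL⟩, h10, h1, h2, h3, h4, h5, h6, h7, h8, h9⟩ :=
    hn₀ n ((le_max_left _ _).trans hn)
  set L := Lg n with hL
  have hL0 : 0 < L := by linarith
  have hq0 : (0 : ℝ) ≤ q := Nat.cast_nonneg _
  have hm0 : (0 : ℝ) ≤ m := Nat.cast_nonneg _
  have hθL0 : 0 ≤ θ * L := by linarith
  have hL12 : L ≤ L ^ 2 := by nlinarith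
  have hL11 : 1 ≤ L ^ 2 := by nlinarith
  have hL13 : 1 ≤ L ^ 3 := one_le_pow₀ hL1
  refine ⟨(le_max_right _ _).trans hn, hθL, by simpa using h10, ?_, ?_, ?_, ?_, ?_, ?_, ?_, ?_, ?_⟩
  · refine log_le hθL0 (by positivity) ?_ h1
    rw [pow_one, add_mul]
    linarith
  · refine log_le hθL0 (by positivity) ?_ h2
    have e1 : (q : ℝ) * L ≤ C₀ * L ^ 2 := by
      calc (q : ℝ) * L ≤ C₀ * L * L := mul_le_mul_of_nonneg_right hqC hL0.le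
        _ = C₀ * L ^ 2 := by ring
    have e2 : (12 * ((m : ℝ) + 4)) ≤ 12 * (m + 4) * L ^ 2 := by
      have := mul_le_mul_of_nonneg_left hL11 (show (0 : ℝ) ≤ 12 * ((m : ℝ) + 4) by positivity)
      linarith
    have e3 : (C₀ + 12 + 12 * ((m : ℝ) + 4) + 8) * L ^ 2 = C₀ * L ^ 2 + 12 * L ^ 2 +
      12 * (m + 4) * L ^ 2 + 8 * L ^ 2 := by ring
    linarith
  · refine log_le hθL0 (by positivity) ?_ h3
    calc 2 * (m : ℝ) * (q : ℝ) ^ 2 * (q + 1) + 1 ≤ 2 * m * (C₀ * L) ^ 2 * (C₀ * L + L) + L ^ 3 := by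
          gcongr
      _ = (2 * m * C₀ ^ 2 * (C₀ + 1) + 1) * L ^ 3 := by ring
  · exact log_le hθL0 (by positivity) (by simp) h4
  · exact log_le hθL0 (by positivity) (by simpa using hqC) h5
  · refine log_le hθL0 (by positivity) ?_ h6
    calc 2 * (m : ℝ) * (q : ℝ) ^ 3 + 1 ≤ 2 * m * (C₀ * L) ^ 3 + L ^ 3 := by gcongr
      _ = (2 * m * C₀ ^ 3 + 1) * L ^ 3 := by ring
  · refine log_le hθL0 (by positivity) ?_ h7
    push_cast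
    calc ((q : ℝ) * d) ^ 2 + 1 ≤ ((C₀ * L) * d) ^ 2 + L ^ 2 := by gcongr
      _ = ((C₀ * d) ^ 2 + 1) * L ^ 2 := by ring
  · refine log_le hθL0 (by positivity) ?_ h8
    push_cast
    simp
  · refine le_trans ?_ h9
    unfold cB
    rw [← hL]
    calc 100 * ((m : ℝ) + 1) ^ 2 * ((d : ℝ) + 1) ^ 4 * ((q : ℝ) + 2) ^ 4 * (L + 2) *
          (60 * (m + 1) * (d + 1) * (J + 1) * ((q : ℝ) + 1) ^ 3 * (L + 1) + 1) ≤
        100 * ((m : ℝ) + 1) ^ 2 * ((d : ℝ) + 1) ^ 4 * (C₀ * L + 2 * L) ^ 4 * (L + 2 * L) *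
          (60 * (m + 1) * (d + 1) * (J + 1) * (C₀ * L + L) ^ 3 * (L + L) + L ^ 4) := by
          have h20 : (q : ℝ) + 2 ≤ C₀ * L + 2 * L := by linarith
          have h21 : L + 2 ≤ L + 2 * L := by linarith
          have h22 : (q : ℝ) + 1 ≤ C₀ * L + L := by linarith
          have h23 : L + 1 ≤ L + L := by linarith
          have h24 : (1 : ℝ) ≤ L ^ 4 := one_le_pow₀ hL1
          gcongr
      _ = _ := by ring

end Pool.Agent.Helper65.CG
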