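import Pool.Agent.Helper65.CG.Real

/-! The choice of the constants. -/

set_option autoImplicit false

namespace Pool.Agent.Helper65.CG

open scoped Classical Topology
open Filter

variable {m : ℕ}

/-- the constants -/
structure Pars (m : ℕ) (ε₀ : ℝ) where
  d : ℕ
  J : ℕ
  μ : ℕ
  K : ℕ
  Sh : ℕ
  C₀ : ℝ
  e₁ : ℝ
  e₂ : ℝ
  e₃ : ℝ
  e₄ : ℝ
  e₅ : ℝ
  μ' : ℝ
  δ : ℝ
  κc : ℝ
  ξ : ℝ
  ϵ : ℝ
  ω : ℝ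
  ϵ₅ : ℝ
  ε : ℝ
  θ : ℝ
  hC₀ : C₀ = Cst m + ε₀ + 1
  he₁ : 0 ≤ e₁
  he₂ : 0 ≤ e₂
  he₃ : 0 ≤ e₃
  he₄ : 0 ≤ e₄
  he₅ : 0 < e₅
  hμ'0 : 0 < μ'
  hδ : 0 < δ
  hκc0 : 0 ≤ κc
  hξ : 0 < ξ
  hϵ : 0 ≤ ϵ
  hω : 0 < ω
  hϵ₅ : 0 < ϵ₅
  hε : 0 < ε
  hε1 : ε < 1
  hθ : 0 < θ
  hd : 1 ≤ d
  hSh : 1 ≤ Sh
  hμ : (1 - ε ^ 2) ^ μ ≤ 1 / 8
  hK : 2 * μ < K
  hJ1 : 2 ≤ J * (5 * ω * Sh)
  hJ2 : J * (5 * ω * Sh) ≤ 3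
  hlo : 5 * ω * Sh ≤ ξ / 2
  c1 : κc + θ ^ 2 < m / Real.logb 2 ((m : ℝ) + 1) * (1 + e₄) *
      (δ - 2 * ξ * C₀ - 2 * C₀ * θ)
  c2 : ξ * ϵ / 2 + 3 * C₀ * θ + 2 * θ ^ 2 < ξ * ϵ
  c3 : 4 * ε * C₀ + C₀ / d ≤ ξ * ϵ / 2 - θ
  c4 : θ < ξ / 2
  c6 : 3 * ϵ + 8 * μ * (1 - ε) ^ K * C₀ + 2 * (κc + θ ^ 2) / μ' +
      d * ((θ ^ 2 + (3 + 2 * μ) * C₀ * θ + 4 * ε * C₀) / (ξ * (ξ / 2 - θ))) ≤ e₁
  c7 : μ' / (m / Real.logb 2 ((m : ℝ) + 1)) + 3 * θ ≤ e₂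
  cpr : (θ ^ 2 + (3 + 2 * μ) * C₀ * θ + 4 * ε * C₀) + ξ * C₀ * θ + J * θ ^ 2 + 2 * C₀ * θ +
      5 * θ ^ 2 + θ < ξ * ω * ϵ₅ / (4 * C₀)
  cw2 : ω + 2 * θ ≤ 1 / 2
  c8 : κc + θ ^ 2 + 2 * m * μ * K * C₀ * θ + C₀ ^ 2 / (2 * Sh) +
      J * ((ϵ₅ + θ ^ 2) * (d ^ 2 + Real.logb 2 (3 * C₀ ^ 2 / ϵ₅)) + 3 * θ ^ 2) ≤ e₃
  cx : ϵ₅ + θ ^ 2 ≤ 1
  cfin : e₁ + Cst m * e₂ + Cst m * e₃ / e₅ + m / Real.logb 2 ((m : ℝ) + 1) * e₄ +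
      Real.sqrt (2 * (m / Real.logb 2 ((m : ℝ) + 1)) * (e₅ + e₃)) +
      (Cst m * d ^ 2 + d) * θ < ε₀
  ck : κc + (m + 1) * θ ^ 2 < (1 - θ) / 2
  cent : m / Real.logb 2 ((m : ℝ) + 1) * (δ + θ ^ 2 + 2 * θ) < κc - m * θ ^ 2

theorem ev_lt {f : ℝ → ℝ} (hf : ContinuousAt f 0) {c : ℝ} (h : f 0 < c) :
    ∀ᶠ θ in 𝓝[>] (0 : ℝ), f θ < c :=
  (hf.tendsto.mono_left nhdsWithin_le_nhds).eventually_lt_const h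

theorem ev_log (a b c : ℝ) (hb : 0 < b) (hc : 0 < c) :
    ∀ᶠ y in 𝓝[>] (0 : ℝ), y * (a + Real.logb 2 (b / y)) < c := by
  have h1 : Tendsto (fun y : ℝ => Real.log y * y) (𝓝[>] 0) (𝓝 0) := by
    simpa using tendsto_log_mul_rpow_nhdsGT_zero (r := 1) one_pos
  have h2 : Tendsto (fun y : ℝ => y * (a + Real.log b / Real.log 2) -
      (Real.log y * y) / Real.log 2) (𝓝[>] 0) (𝓝 (0 * (a + Real.log b / Real.log 2) -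
      0 / Real.log 2)) := by
    apply Tendsto.sub
    · exact (tendsto_id.mono_left nhdsWithin_le_nhds).mul_const _
    · exact h1.div_const _
  rw [zero_mul, zero_div, sub_zero] at h2
  have h3 := h2.eventually_lt_const hc
  filter_upwards [h3, self_mem_nhdsWithin] with y hy hy0
  have hy0' : 0 < y := hy0
  have h4 : y * (a + Real.logb 2 (b / y)) = y * (a + Real.log b / Real.log 2) -
      (Real.log y * y) / Real.log 2 := by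
    unfold Real.logb
    rw [Real.log_div hb.ne' hy0'.ne']
    ring
  rw [h4]
  exact hy

theorem sg_ge (hm : 1 ≤ m) : 1 ≤ (m : ℝ) / Real.logb 2 ((m : ℝ) + 1) := by
  have hm1 : (1 : ℝ) ≤ m := by exact_mod_cast hm
  have hlogm : 0 < Real.logb 2 ((m : ℝ) + 1) := Real.logb_pos (by norm_num) (by linarith)
  rw [le_div_iff₀ hlogm, one_mul]
  rw [Real.logb_le_iff_le_rpow (by norm_num) (by linarith), Real.rpow_natCast]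
  exact_mod_cast Nat.succ_le_of_lt (Nat.lt_two_pow_self (n := m))

theorem exists_pars (hm : 1 ≤ m) {ε₀ : ℝ} (hε₀ : 0 < ε₀) : Nonempty (Pars m ε₀) := by
  set σ : ℝ := m / Real.logb 2 ((m : ℝ) + 1) with hσ
  have hσ1 : 1 ≤ σ := sg_ge hm
  have hCσ : σ ≤ Cst m := Cst_ge hm
  have hC1 : 1 ≤ Cst m := hσ1.trans hCσ
  set C := Cst m with hC
  have hσ0 : 0 < σ := by linarith
  have hC0 : 0 < C := by linarith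
  set C₀ := C + ε₀ + 1 with hC₀
  have hC₀0 : 0 < C₀ := by linarith
  -- the errors
  set e₁ := ε₀ / 10 with he₁
  set e₂ := ε₀ / (10 * C) with he₂
  set e₄ := ε₀ / (10 * σ) with he₄
  set e₅ := ε₀ ^ 2 / (400 * σ) with he₅
  have he₁0 : 0 < e₁ := by positivity
  have he₂0 : 0 < e₂ := by positivity
  have he₄0 : 0 < e₄ := by positivity
  have he₅0 : 0 < e₅ := by positivity
  set e₃ := min e₅ (ε₀ * e₅ / (10 * C)) with he₃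
  have he₃0 : 0 < e₃ := lt_min he₅0 (by positivity)
  have hE : e₁ + C * e₂ + C * e₃ / e₅ + σ * e₄ + Real.sqrt (2 * σ * (e₅ + e₃)) ≤ ε₀ / 2 := by
    have h1 : C * e₂ = ε₀ / 10 := by rw [he₂]; field_simp
    have h2 : σ * e₄ = ε₀ / 10 := by rw [he₄]; field_simp
    have h3 : C * e₃ / e₅ ≤ ε₀ / 10 := by
      have : e₃ ≤ ε₀ * e₅ / (10 * C) := min_le_right _ _
      calc C * e₃ / e₅ ≤ C * (ε₀ * e₅ / (10 * C)) / e₅ := by gcongr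
        _ = ε₀ / 10 := by field_simp
    have h4 : Real.sqrt (2 * σ * (e₅ + e₃)) ≤ ε₀ / 10 := by
      have : e₃ ≤ e₅ := min_le_left _ _
      have h5 : 2 * σ * (e₅ + e₃) ≤ (ε₀ / 10) ^ 2 := by
        calc 2 * σ * (e₅ + e₃) ≤ 2 * σ * (e₅ + e₅) := by gcongr
          _ = (ε₀ / 10) ^ 2 := by rw [he₅]; field_simp; ring
      exact Real.sqrt_le_iff.2 ⟨by positivity, h5⟩
    linarith
  set μ' := e₂ * σ / 2 with hμ'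
  have hμ'0 : 0 < μ' := by positivity
  obtain ⟨κc, hκc0, hκ1, hκ2, hκ3⟩ : ∃ κc : ℝ, 0 < κc ∧ κc ≤ e₃ / 4 ∧ κc ≤ e₁ * μ' / 8 ∧
      κc ≤ 1 / 4 := by
    refine ⟨min (e₃ / 4) (min (e₁ * μ' / 8) (1 / 4)), ?_, min_le_left _ _,
      (min_le_right _ _).trans (min_le_left _ _), (min_le_right _ _).trans (min_le_right _ _)⟩
    exact lt_min (by positivity) (lt_min (by positivity) (by norm_num))
  set δ := κc / (σ * (1 + e₄ / 2)) with hδ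
  have hδ0 : 0 < δ := by positivity
  have hκδ : κc = σ * (1 + e₄ / 2) * δ := by rw [hδ]; field_simp
  set ξ := δ * e₄ / (8 * C₀ * (1 + e₄)) with hξ
  have hξ0 : 0 < ξ := by positivity
  set ϵ := e₁ / 24 with hϵ
  have hϵ0 : 0 < ϵ := by positivity
  obtain ⟨d, hd1, hd2⟩ : ∃ d : ℕ, 1 ≤ d ∧ C₀ / d ≤ ξ * ϵ / 8 := by
    refine ⟨⌈8 * C₀ / (ξ * ϵ)⌉₊ + 1, by omega, ?_⟩
    have h1 : 8 * C₀ / (ξ * ϵ) ≤ (⌈8 * C₀ / (ξ * ϵ)⌉₊ + 1 : ℕ) := by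
      push_cast
      have := Nat.le_ceil (8 * C₀ / (ξ * ϵ))
      linarith
    calc C₀ / (⌈8 * C₀ / (ξ * ϵ)⌉₊ + 1 : ℕ) ≤ C₀ / (8 * C₀ / (ξ * ϵ)) := by gcongr
      _ = ξ * ϵ / 8 := by field_simp
  obtain ⟨J, hJ2, hJξ⟩ : ∃ J : ℕ, 2 ≤ J ∧ 5 / ξ ≤ J := by
    refine ⟨⌈5 / ξ⌉₊ + 2, by omega, ?_⟩
    push_cast
    have := Nat.le_ceil (5 / ξ)
    linarith
  obtain ⟨Sh, hSh1, hSh2⟩ : ∃ Sh : ℕ, 1 ≤ Sh ∧ C₀ ^ 2 / (2 * Sh) ≤ e₃ / 8 := by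
    refine ⟨⌈4 * C₀ ^ 2 / e₃⌉₊ + 1, by omega, ?_⟩
    have h1 : 4 * C₀ ^ 2 / e₃ ≤ (⌈4 * C₀ ^ 2 / e₃⌉₊ + 1 : ℕ) := by
      push_cast
      have := Nat.le_ceil (4 * C₀ ^ 2 / e₃)
      linarith
    calc C₀ ^ 2 / (2 * (⌈4 * C₀ ^ 2 / e₃⌉₊ + 1 : ℕ)) ≤ C₀ ^ 2 / (2 * (4 * C₀ ^ 2 / e₃)) := by
          gcongr
      _ = e₃ / 8 := by field_simp; ring
  have hJ0 : (2 : ℝ) ≤ J := by exact_mod_cast hJ2
  have hSh0 : (1 : ℝ) ≤ Sh := by exact_mod_cast hSh1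
  set ω : ℝ := 1 / (2 * Sh * J) with hω
  have hJpos : (0 : ℝ) < J := by linarith
  have hShpos : (0 : ℝ) < Sh := by linarith
  have hω0 : 0 < ω := by positivity
  have hω1 : J * (5 * ω * Sh) = 5 / 2 := by rw [hω]; field_simp
  have hω2 : 5 * ω * Sh ≤ ξ / 2 := by
    have h1 : 5 * ω * Sh = 5 / (2 * J) := by rw [hω]; field_simp
    rw [h1, div_le_div_iff₀ (by positivity) (by norm_num)]
    rw [div_le_iff₀ hξ0] at hJξ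
    linarith
  have hω3 : ω ≤ 1 / 4 := by
    rw [hω, div_le_div_iff₀ (by positivity) (by norm_num)]
    nlinarith
  -- `ϵ₅`
  obtain ⟨ϵ₅, hϵ₅0, hϵ₅1, hϵ₅2⟩ : ∃ ϵ₅ : ℝ, 0 < ϵ₅ ∧ ϵ₅ < 1 / 2 ∧
      ϵ₅ * ((d : ℝ) ^ 2 + Real.logb 2 (3 * C₀ ^ 2 / ϵ₅)) < e₃ / (8 * J) := by
    have h1 := ev_log ((d : ℝ) ^ 2) (3 * C₀ ^ 2) (e₃ / (8 * J)) (by positivity) (by positivity)
    have h2 : ∀ᶠ y in 𝓝[>] (0 : ℝ), y < 1 / 2 := ev_lt continuousAt_id (by norm_num)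
    obtain ⟨y, ⟨hy1, hy2⟩, hy3⟩ := ((h1.and h2).and self_mem_nhdsWithin).exists
    exact ⟨y, hy3, hy2, hy1⟩
  -- the density of the seeds
  obtain ⟨ε, hε0, hε1, hε2, hε3, hε4⟩ : ∃ ε : ℝ, 0 < ε ∧ ε < 1 ∧ 4 * ε * C₀ < ξ * ϵ / 8 ∧
      d * ((4 * ε * C₀) / (ξ * (ξ / 2))) < e₁ / 8 ∧ 4 * ε * C₀ < ξ * ω * ϵ₅ / (4 * C₀) := by
    have h1 : ∀ᶠ y in 𝓝[>] (0 : ℝ), y < 1 := ev_lt continuousAt_id (by norm_num)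
    have h2 : ∀ᶠ y in 𝓝[>] (0 : ℝ), 4 * y * C₀ < ξ * ϵ / 8 :=
      ev_lt (by fun_prop) (by simp only [mul_zero, zero_mul]; positivity)
    have h3 : ∀ᶠ y in 𝓝[>] (0 : ℝ), d * ((4 * y * C₀) / (ξ * (ξ / 2))) < e₁ / 8 :=
      ev_lt (by fun_prop) (by simp only [mul_zero, zero_mul, zero_div]; positivity)
    have h4 : ∀ᶠ y in 𝓝[>] (0 : ℝ), 4 * y * C₀ < ξ * ω * ϵ₅ / (4 * C₀) :=
      ev_lt (by fun_prop) (by simp only [mul_zero, zero_mul]; positivity)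
    obtain ⟨y, ⟨⟨⟨hy1, hy2⟩, hy3⟩, hy4⟩, hy5⟩ :=
      ((((h1.and h2).and h3).and h4).and self_mem_nhdsWithin).exists
    exact ⟨y, hy5, hy1, hy2, hy3, hy4⟩
  obtain ⟨μ, hμ⟩ := exists_pow_lt_of_lt_one (show (0 : ℝ) < 1 / 8 by norm_num)
    (show 1 - ε ^ 2 < 1 by have : 0 < ε ^ 2 := by positivity
                           linarith)
  obtain ⟨K, hK1, hK2⟩ : ∃ K : ℕ, 2 * μ < K ∧ 8 * μ * (1 - ε) ^ K * C₀ ≤ e₁ / 8 := by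
    obtain ⟨K₁, hK₁⟩ := exists_pow_lt_of_lt_one (show (0 : ℝ) < e₁ / 8 / (8 * (μ + 1) * C₀) by
      positivity) (show 1 - ε < 1 by linarith)
    refine ⟨K₁ + (2 * μ + 1), by omega, ?_⟩
    have h1 : (1 - ε) ^ (K₁ + (2 * μ + 1)) ≤ (1 - ε) ^ K₁ :=
      pow_le_pow_of_le_one (by linarith) (by linarith) (by omega)
    have h2 : (0 : ℝ) ≤ μ := Nat.cast_nonneg _
    calc 8 * μ * (1 - ε) ^ (K₁ + (2 * μ + 1)) * C₀ ≤ 8 * (μ + 1) *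
          (e₁ / 8 / (8 * (μ + 1) * C₀)) * C₀ := by
          have h3 := h1.trans hK₁.le
          have h4 : 0 ≤ (1 - ε) ^ (K₁ + (2 * μ + 1)) := pow_nonneg (by linarith) _
          have h5 : 8 * (μ : ℝ) ≤ 8 * (μ + 1) := by linarith
          gcongr
      _ = e₁ / 8 := by field_simp
  -- `θ`
  have t1 : ∀ᶠ θ in 𝓝[>] (0 : ℝ), κc + θ ^ 2 - σ * (1 + e₄) *
      (δ - 2 * ξ * C₀ - 2 * C₀ * θ) < 0 := by
    refine ev_lt (by fun_prop) ?_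
    have h1 : 2 * ξ * C₀ = δ * e₄ / (4 * (1 + e₄)) := by rw [hξ]; field_simp; ring
    have h2 : κc + (0 : ℝ) ^ 2 - σ * (1 + e₄) * (δ - 2 * ξ * C₀ - 2 * C₀ * 0) =
        - (σ * δ * e₄ / 4) := by
      rw [h1, hκδ]
      field_simp
      ring
    rw [h2]
    have : 0 < σ * δ * e₄ / 4 := by positivity
    linarith
  have t2 : ∀ᶠ θ in 𝓝[>] (0 : ℝ), ξ * ϵ / 2 + 3 * C₀ * θ + 2 * θ ^ 2 < ξ * ϵ := by
    refine ev_lt (by fun_prop) ?_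
    have : 0 < ξ * ϵ := by positivity
    norm_num
    linarith
  have t3 : ∀ᶠ θ in 𝓝[>] (0 : ℝ), 4 * ε * C₀ + C₀ / d + θ < ξ * ϵ / 2 := by
    refine ev_lt (by fun_prop) ?_
    have : 0 < ξ * ϵ := by positivity
    linarith
  have t4 : ∀ᶠ θ in 𝓝[>] (0 : ℝ), θ < ξ / 2 := ev_lt continuousAt_id (by simpa using hξ0)
  have t6 : ∀ᶠ θ in 𝓝[>] (0 : ℝ), 3 * ϵ + 8 * μ * (1 - ε) ^ K * C₀ + 2 * (κc + θ ^ 2) / μ' +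
      d * ((θ ^ 2 + (3 + 2 * μ) * C₀ * θ + 4 * ε * C₀) / (ξ * (ξ / 2 - θ))) < e₁ := by
    refine ev_lt ?_ ?_
    · apply ContinuousAt.add
      · fun_prop
      · apply ContinuousAt.mul continuousAt_const
        apply ContinuousAt.div (by fun_prop) (by fun_prop)
        rw [sub_zero]
        positivity
    · have h1 : 2 * (κc + (0 : ℝ) ^ 2) / μ' ≤ e₁ / 4 := by
        rw [div_le_iff₀ hμ'0]
        linarith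
      have h2 : (0 : ℝ) ^ 2 + (3 + 2 * μ) * C₀ * 0 + 4 * ε * C₀ = 4 * ε * C₀ := by ring
      rw [h2, sub_zero]
      have h3 : 3 * ϵ = e₁ / 8 := by rw [hϵ]; ring
      linarith
  have t7 : ∀ᶠ θ in 𝓝[>] (0 : ℝ), μ' / σ + 3 * θ < e₂ := by
    refine ev_lt (by fun_prop) ?_
    have h1 : μ' / σ = e₂ / 2 := by rw [hμ']; field_simp
    rw [h1]
    linarith
  have tpr : ∀ᶠ θ in 𝓝[>] (0 : ℝ), (θ ^ 2 + (3 + 2 * μ) * C₀ * θ + 4 * ε * C₀) +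
      ξ * C₀ * θ + J * θ ^ 2 + 2 * C₀ * θ + 5 * θ ^ 2 + θ < ξ * ω * ϵ₅ / (4 * C₀) := by
    refine ev_lt (by fun_prop) ?_
    have h2 : ((0 : ℝ) ^ 2 + (3 + 2 * μ) * C₀ * 0 + 4 * ε * C₀) +
      ξ * C₀ * 0 + J * 0 ^ 2 + 2 * C₀ * 0 + 5 * 0 ^ 2 + 0 = 4 * ε * C₀ := by ring
    rw [h2]
    exact hε4
  have tw : ∀ᶠ θ in 𝓝[>] (0 : ℝ), ω + 2 * θ < 1 / 2 := by
    refine ev_lt (by fun_prop) ?_
    linarith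
  have t8 : ∀ᶠ θ in 𝓝[>] (0 : ℝ), κc + θ ^ 2 + 2 * m * μ * K * C₀ * θ + C₀ ^ 2 / (2 * Sh) +
      J * ((ϵ₅ + θ ^ 2) * (d ^ 2 + Real.logb 2 (3 * C₀ ^ 2 / ϵ₅)) + 3 * θ ^ 2) < e₃ := by
    refine ev_lt (by fun_prop) ?_
    have h1 : κc + (0 : ℝ) ^ 2 + 2 * m * μ * K * C₀ * 0 + C₀ ^ 2 / (2 * Sh) +
      J * ((ϵ₅ + 0 ^ 2) * (d ^ 2 + Real.logb 2 (3 * C₀ ^ 2 / ϵ₅)) + 3 * 0 ^ 2) =
      κc + C₀ ^ 2 / (2 * Sh) + J * (ϵ₅ * (d ^ 2 + Real.logb 2 (3 * C₀ ^ 2 / ϵ₅))) := by ring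
    rw [h1]
    have h2 : J * (ϵ₅ * ((d : ℝ) ^ 2 + Real.logb 2 (3 * C₀ ^ 2 / ϵ₅))) ≤ e₃ / 8 := by
      have h3 := mul_le_mul_of_nonneg_left hϵ₅2.le hJpos.le
      have h4 : J * (e₃ / (8 * J)) = e₃ / 8 := by field_simp
      linarith
    linarith
  have tx : ∀ᶠ θ in 𝓝[>] (0 : ℝ), ϵ₅ + θ ^ 2 < 1 := by
    refine ev_lt (by fun_prop) ?_
    norm_num
    linarith
  have tf : ∀ᶠ θ in 𝓝[>] (0 : ℝ), e₁ + C * e₂ + C * e₃ / e₅ + σ * e₄ +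
      Real.sqrt (2 * σ * (e₅ + e₃)) + (C * d ^ 2 + d) * θ < ε₀ := by
    refine ev_lt (by fun_prop) ?_
    rw [mul_zero, add_zero]
    linarith
  have tk : ∀ᶠ θ in 𝓝[>] (0 : ℝ), κc + ((m : ℝ) + 1) * θ ^ 2 - (1 - θ) / 2 < 0 := by
    refine ev_lt (by fun_prop) ?_
    norm_num
    linarith
  have te : ∀ᶠ θ in 𝓝[>] (0 : ℝ), σ * (δ + θ ^ 2 + 2 * θ) - (κc - m * θ ^ 2) < 0 := by
    refine ev_lt (by fun_prop) ?_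
    have h1 : σ * (δ + (0 : ℝ) ^ 2 + 2 * 0) - (κc - m * 0 ^ 2) = -(σ * δ * (e₄ / 2)) := by
      rw [hκδ]
      ring
    rw [h1]
    have : 0 < σ * δ * (e₄ / 2) := by positivity
    linarith
  obtain ⟨θ, h1, h2, h3, h4, h6, h7, hpr, hw, h8, hx, hf, hk, he, hθ⟩ :=
    (t1.and (t2.and (t3.and (t4.and (t6.and (t7.and (tpr.and (tw.and (t8.and (tx.and (tf.and
      (tk.and (te.and self_mem_nhdsWithin))))))))))))).exists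
  exact ⟨⟨d, J, μ, K, Sh, C₀, e₁, e₂, e₃, e₄, e₅, μ', δ, κc, ξ, ϵ, ω, ϵ₅, ε, θ, rfl,
    he₁0.le, he₂0.le, he₃0.le, he₄0.le, he₅0, hμ'0, hδ0, hκc0.le, hξ0, hϵ0.le, hω0, hϵ₅0, hε0,
    hε1, hθ, hd1, hSh1, hμ.le, hK1, by linarith, by linarith, hω2, by linarith, h2, by linarith,
    h4, h6.le, h7.le, hpr, hw.le, h8.le, hx.le, hf, by linarith, by linarith⟩⟩

end Pool.Agent.Helper65.CG
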