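import Pool.Agent.Helper92.UB.Basic
import Pool.Agent.Helper5.UB.Rho
import Pool.Agent.Helper57.UB.CoposSmall
import Pool.Agent.Helper32.UB.CoposMid
import Pool.Agent.Helper12.UB.CoposLarge
import Pool.Agent.Helper46.UB.Inv
import Pool.Agent.Helper88.UB.LabP
import Pool.Agent.Helper20.UB.Entry
import Pool.Agent.Helper18.UB.Bets4
import Pool.Agent.Helper46.UB.Tuples
import Pool.Agent.Helper91.UB.Reg
import Pool.Agent.Helper32.UB.Derive
import Pool.Agent.Helper56.UB.Cluster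
import Pool.Agent.Helper36.UB.Clustered
import Pool.Agent.Helper91.UB.ClassVal
import Pool.Agent.Helper91.UB.RegC
import Pool.Agent.Helper8.UB.GaLower
import Pool.Agent.Helper61.UB.Base
import Pool.Agent.Helper79.UB.Dbound
import Pool.Agent.Helper15.UB.Exclusion
import Pool.Agent.Helper57.UB.Gstep
import Pool.Agent.Helper38.UB.Ych
import Pool.Agent.Helper48.UB.FamExt
import Pool.Agent.Helper48.UB.FinalNum

/-! All modules of the upper bound, and the last numerical step. -/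

set_option autoImplicit false

namespace Pool.Agent.Helper65.CG

open scoped Classical
open Pool.Agent.Helper65.CliqueGame

variable {n q m : ℕ}

theorem copos (hm : 1 ≤ m) {ι : Type} (T : Finset ι) (k : ι → ℕ) (hk : ∀ i ∈ T, 1 ≤ k i) :
    2 * (T.card : ℝ) * ∑ i ∈ T, (k i : ℝ) ≤ Cst m * ∑ i ∈ T, ∑ j ∈ T, rho m (k i * k j) := by
  rcases le_or_gt m 3 with h3 | h3
  · exact copos_small hm h3 T k hk
  · rcases le_or_gt m 5 with h5 | h5
    · exact copos_mid (by omega) T k hk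
    · exact copos_large (by omega) T k hk

/-- the final numerical step -/
theorem final_num (hm : 1 ≤ m) {d : ℕ} {T : Finset (Fin q)} (k : Fin q → ℕ)
    (hk : ∀ P ∈ T, 1 ≤ k P ∧ k P ≤ d) (a : Fin q → ℝ) {L Dc e₁ e₂ e₃ e₄ e₅ : ℝ} (hL : 1 ≤ L)
    (hDc : 0 ≤ Dc) (he₁ : 0 ≤ e₁) (he₂ : 0 ≤ e₂) (he₃ : 0 ≤ e₃) (he₄ : 0 ≤ e₄) (he₅ : 0 < e₅)
    (h1 : (q : ℝ) ≤ Dc + ∑ P ∈ T, (k P : ℝ) + e₁ * L)
    (h2 : ∀ P ∈ T, a P ≤ L - Dc / (m / Real.logb 2 ((m : ℝ) + 1)) + e₂ * L)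
    (h2' : ∀ P ∈ T, a P ≤ L)
    (h3 : ∑ p ∈ prs T, rho m (k p.1 * k p.2) ≤ ∑ P ∈ T, a P + e₃ * L ^ 2)
    (h4 : Dc ≤ m / Real.logb 2 ((m : ℝ) + 1) * (1 + e₄) * L) :
    (q : ℝ) ≤ (Cst m + e₁ + Cst m * e₂ + Cst m * e₃ / e₅ +
      m / Real.logb 2 ((m : ℝ) + 1) * e₄ +
      Real.sqrt (2 * (m / Real.logb 2 ((m : ℝ) + 1)) * (e₅ + e₃))) * L +
      Cst m * d ^ 2 + d :=
  H48.final_num_of hm k (copos hm T k fun i hi => (hk i hi).1) hk a hL hDc he₁ he₂ he₃ he₄ he₅ h1 h2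
    h2' h3 h4

end Pool.Agent.Helper65.CG
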