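import Pool.Agent.Helper65.CG.Static

/-! The static argument with scaled parameters. -/

set_option autoImplicit false

namespace Pool.Agent.Helper65.CG

open scoped Classical
open Pool.Agent.Helper65.CliqueGame

variable {n q m : ℕ}

theorem scaled (hm : 1 ≤ m) (hn : 2 ≤ n) {d J μ K Sh : ℕ}
    {ε₀ C₀ e₁ e₂ e₃ e₄ e₅ μ' δ κc ξ ϵ ω ϵ₅ ε θ : ℝ}
    (hC₀ : 1 ≤ C₀) (hC1 : 1 ≤ Cst m) (he₁ : 0 ≤ e₁) (he₂ : 0 ≤ e₂) (he₃ : 0 ≤ e₃) (he₄ : 0 ≤ e₄)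
    (he₅ : 0 < e₅) (hμ'0 : 0 < μ') (hκc0 : 0 ≤ κc) (hξ : 0 < ξ) (hϵ : 0 ≤ ϵ) (hω : 0 < ω)
    (hϵ₅ : 0 < ϵ₅) (hε : 0 < ε) (hε1 : ε < 1) (hθ : 0 < θ) (hd : 1 ≤ d) (hSh : 1 ≤ Sh)
    (hμ : (1 - ε ^ 2) ^ μ ≤ 1 / 8) (hK : 2 * μ < K)
    (hJ1 : 2 ≤ J * (5 * ω * Sh)) (hJ2 : J * (5 * ω * Sh) ≤ 3) (hlo : 5 * ω * Sh ≤ ξ / 2)
    (c1 : κc + θ ^ 2 < m / Real.logb 2 ((m : ℝ) + 1) * (1 + e₄) *
      (δ - 2 * ξ * C₀ - 2 * C₀ * θ))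
    (c2 : ξ * ϵ / 2 + 3 * C₀ * θ + 2 * θ ^ 2 < ξ * ϵ)
    (c3 : 4 * ε * C₀ + C₀ / d ≤ ξ * ϵ / 2 - θ)
    (c4 : θ < ξ / 2)
    (c6 : 3 * ϵ + 8 * μ * (1 - ε) ^ K * C₀ + 2 * (κc + θ ^ 2) / μ' +
      d * ((θ ^ 2 + (3 + 2 * μ) * C₀ * θ + 4 * ε * C₀) / (ξ * (ξ / 2 - θ))) ≤ e₁)
    (c7 : μ' / (m / Real.logb 2 ((m : ℝ) + 1)) + 3 * θ ≤ e₂)
    (cpr : (θ ^ 2 + (3 + 2 * μ) * C₀ * θ + 4 * ε * C₀) + ξ * C₀ * θ + J * θ ^ 2 + 2 * C₀ * θ +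
      5 * θ ^ 2 + θ < ξ * ω * ϵ₅ / (4 * C₀))
    (cw2 : ω + 2 * θ ≤ 1 / 2)
    (c8 : κc + θ ^ 2 + 2 * m * μ * K * C₀ * θ + C₀ ^ 2 / (2 * Sh) +
      J * ((ϵ₅ + θ ^ 2) * (d ^ 2 + Real.logb 2 (3 * C₀ ^ 2 / ϵ₅)) + 3 * θ ^ 2) ≤ e₃)
    (cx : ϵ₅ + θ ^ 2 ≤ 1)
    (hL : 1 ≤ θ * Lg n) (hq1 : (Cst m + ε₀) * Lg n ≤ q) (hq2 : (q : ℝ) ≤ C₀ * Lg n)
    (hqL : Lg n ≤ q)
    (cfin : e₁ + Cst m * e₂ + Cst m * e₃ / e₅ + m / Real.logb 2 ((m : ℝ) + 1) * e₄ +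
      Real.sqrt (2 * (m / Real.logb 2 ((m : ℝ) + 1)) * (e₅ + e₃)) +
      (Cst m * d ^ 2 + d) * θ < ε₀)
    (l1 : Real.logb 2 ((q : ℝ) + 1) ≤ θ * Lg n)
    (l2 : Real.logb 2 (q * Lg n + 12 * (Lg n + m + 4) + 8) ≤ θ * Lg n)
    (l3 : Real.logb 2 (2 * m * (q : ℝ) ^ 2 * (q + 1) + 1) ≤ θ * Lg n)
    (l4 : lb d ≤ θ * Lg n) (l5 : lb q ≤ θ * Lg n)
    (l6 : Real.logb 2 (2 * m * (q : ℝ) ^ 3 + 1) ≤ θ * Lg n)
    (l7 : lb ((q * d) ^ 2 + 1) ≤ θ * Lg n) (l8 : lb (2 * J) ≤ θ * Lg n)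
    (l9 : 100 * ((m : ℝ) + 1) ^ 2 * ((d : ℝ) + 1) ^ 4 * ((q : ℝ) + 2) ^ 4 * (Lg n + 2) *
      (cB m q d J n + 1) ≤ (2 : ℝ) ^ (ω * Lg n))
    {ℓ : Sym2 (Fin n) → ℕ} (hℓ : Lab m ℓ) (hB1 : Bet1 ℓ (12 * (Lg n + m + 4)))
    (hB2 : Bet2 ℓ q d J (cB m q d J n))
    (hne : (2 : ℝ) ^ (δ * Lg n ^ 2) ≤ (near ℓ q ⌈κc * Lg n ^ 2⌉₊).card) : False := by
  set L := Lg n with hLdef
  set σ : ℝ := m / Real.logb 2 ((m : ℝ) + 1) with hσ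
  have hL1 : 1 ≤ L := by
    rw [hLdef]
    unfold Lg
    rw [Real.le_logb_iff_rpow_le (by norm_num) (by exact_mod_cast (by omega : 0 < n))]
    rw [Real.rpow_one]
    exact_mod_cast hn
  have hL0 : 0 < L := by linarith
  have hLL : 0 < L ^ 2 := by positivity
  have hlogm : 0 < Real.logb 2 ((m : ℝ) + 1) := by
    apply Real.logb_pos (by norm_num)
    have : (1 : ℝ) ≤ m := by exact_mod_cast hm
    linarith
  have hσ0 : 0 < σ := by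
    rw [hσ]
    have : (0 : ℝ) < m := by exact_mod_cast hm
    positivity
  have T2 : 1 ≤ θ ^ 2 * L ^ 2 := by
    have : (1 : ℝ) ^ 2 ≤ (θ * L) ^ 2 := pow_le_pow_left₀ (by norm_num) hL 2
    rw [mul_pow] at this
    linarith
  have T3 : L ≤ θ * L ^ 2 := by
    have := mul_le_mul_of_nonneg_right hL hL0.le
    have h2 : θ * L * L = θ * L ^ 2 := by ring
    linarith
  have hθL : 0 ≤ θ * L := by positivity
  have hq0 : 0 < (q : ℝ) := by linarith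
  set κ := ⌈κc * L ^ 2⌉₊ with hκ
  have hκ1 : (κ : ℝ) ≤ (κc + θ ^ 2) * L ^ 2 := by
    have := (Nat.ceil_lt_add_one (show 0 ≤ κc * L ^ 2 by positivity)).le
    have h2 : (κc + θ ^ 2) * L ^ 2 = κc * L ^ 2 + θ ^ 2 * L ^ 2 := by ring
    linarith
  set x := ⌈ϵ₅ * L ^ 2⌉₊ with hx
  have hxlo : ϵ₅ * L ^ 2 ≤ x := Nat.le_ceil _
  have hxup : (x : ℝ) ≤ (ϵ₅ + θ ^ 2) * L ^ 2 := by
    have := (Nat.ceil_lt_add_one (show 0 ≤ ϵ₅ * L ^ 2 by positivity)).le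
    have h2 : (ϵ₅ + θ ^ 2) * L ^ 2 = ϵ₅ * L ^ 2 + θ ^ 2 * L ^ 2 := by ring
    linarith
  have hx0 : 0 < (x : ℝ) := by
    have : 0 < ϵ₅ * L ^ 2 := by positivity
    linarith
  -- the loss
  have hqθ : ∀ y : ℝ, y ≤ θ * L → (q : ℝ) * y ≤ C₀ * θ * L ^ 2 := by
    intro y hy
    calc (q : ℝ) * y ≤ q * (θ * L) := mul_le_mul_of_nonneg_left hy hq0.le
      _ ≤ (C₀ * L) * (θ * L) := mul_le_mul_of_nonneg_right hq2 hθL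
      _ = C₀ * θ * L ^ 2 := by ring
  have hq1L : (q : ℝ) ≤ C₀ * θ * L ^ 2 := by
    have := hqθ 1 hL
    linarith
  have hη : eta1 q m n μ ε ≤ (θ ^ 2 + (3 + 2 * μ) * C₀ * θ + 4 * ε * C₀) * L ^ 2 := by
    unfold eta1
    rw [← hLdef]
    have h1 := hqθ _ l5
    have h2 : 2 * (μ : ℝ) * q * Real.logb 2 (2 * m * (q : ℝ) ^ 3 + 1) ≤
        2 * μ * (C₀ * θ * L ^ 2) := by
      have := mul_le_mul_of_nonneg_left (hqθ _ l6) (show (0 : ℝ) ≤ 2 * μ by positivity)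
      linarith
    have h3 : 4 * ε * q * L ≤ 4 * ε * C₀ * L ^ 2 := by
      have : 4 * ε * (q : ℝ) * L ≤ 4 * ε * (C₀ * L) * L := by gcongr
      have h4 : 4 * ε * (C₀ * L) * L = 4 * ε * C₀ * L ^ 2 := by ring
      linarith
    have h5 : (θ ^ 2 + (3 + 2 * μ) * C₀ * θ + 4 * ε * C₀) * L ^ 2 = θ ^ 2 * L ^ 2 +
        2 * (C₀ * θ * L ^ 2) + C₀ * θ * L ^ 2 + 2 * μ * (C₀ * θ * L ^ 2) +
        4 * ε * C₀ * L ^ 2 := by ring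
    rw [h5]
    linarith
  set ηθ : ℝ := θ ^ 2 + (3 + 2 * μ) * C₀ * θ + 4 * ε * C₀ with hηθ
  have hηθ0 : 0 ≤ ηθ := by positivity
  -- N1
  have hN1 : (κ : ℝ) < σ * (1 + e₄) * (δ * L ^ 2 - 2 * ξ * q * L - q * (Real.logb 2 ((q : ℝ) + 1) +
        Real.logb 2 (q * L + 12 * (L + m + 4) + 8))) := by
    have h1 := hqθ _ l1
    have h2 := hqθ _ l2
    have h3 : 2 * ξ * (q : ℝ) * L ≤ 2 * ξ * C₀ * L ^ 2 := by
      have : 2 * ξ * (q : ℝ) * L ≤ 2 * ξ * (C₀ * L) * L := by gcongr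
      have h4 : 2 * ξ * (C₀ * L) * L = 2 * ξ * C₀ * L ^ 2 := by ring
      linarith
    have h4 : (δ - 2 * ξ * C₀ - 2 * C₀ * θ) * L ^ 2 ≤ δ * L ^ 2 - 2 * ξ * q * L -
        q * (Real.logb 2 ((q : ℝ) + 1) + Real.logb 2 (q * L + 12 * (L + m + 4) + 8)) := by
      have h5 : (δ - 2 * ξ * C₀ - 2 * C₀ * θ) * L ^ 2 = δ * L ^ 2 - 2 * ξ * C₀ * L ^ 2 -
        (C₀ * θ * L ^ 2 + C₀ * θ * L ^ 2) := by ring
      have h6 : (q : ℝ) * (Real.logb 2 ((q : ℝ) + 1) +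
          Real.logb 2 (q * L + 12 * (L + m + 4) + 8)) = q * Real.logb 2 ((q : ℝ) + 1) +
          q * Real.logb 2 (q * L + 12 * (L + m + 4) + 8) := by ring
      rw [h5, h6]
      linarith
    calc (κ : ℝ) ≤ (κc + θ ^ 2) * L ^ 2 := hκ1
      _ < (σ * (1 + e₄) * (δ - 2 * ξ * C₀ - 2 * C₀ * θ)) * L ^ 2 :=
        mul_lt_mul_of_pos_right c1 hLL
      _ = σ * (1 + e₄) * ((δ - 2 * ξ * C₀ - 2 * C₀ * θ) * L ^ 2) := by ring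
      _ ≤ _ := mul_le_mul_of_nonneg_left h4 (by positivity)
  -- N2
  set s₀ := ⌊ξ * ϵ / 2 * L⌋₊ with hs₀
  set τ₀ := ⌊ϵ * L⌋₊ with hτ₀
  have hs1 : (s₀ : ℝ) ≤ ξ * ϵ / 2 * L := Nat.floor_le (by positivity)
  have hs2 : ξ * ϵ / 2 * L < s₀ + 1 := Nat.lt_floor_add_one _
  have hτ1 : (τ₀ : ℝ) ≤ ϵ * L := Nat.floor_le (by positivity)
  have hτ2 : ϵ * L < τ₀ + 1 := Nat.lt_floor_add_one _
  have hN2 : s₀ * L + q * (2 + Real.logb 2 (2 * m * (q : ℝ) ^ 2 * (q + 1) + 1)) + 2 <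
      ξ * L * (τ₀ + 1) := by
    have h1 := hqθ _ l3
    have h2 : (s₀ : ℝ) * L ≤ ξ * ϵ / 2 * L ^ 2 := by
      have := mul_le_mul_of_nonneg_right hs1 hL0.le
      have h3 : ξ * ϵ / 2 * L * L = ξ * ϵ / 2 * L ^ 2 := by ring
      linarith
    have h3 : ξ * ϵ * L ^ 2 ≤ ξ * L * (τ₀ + 1) := by
      have := mul_le_mul_of_nonneg_left hτ2.le (show 0 ≤ ξ * L by positivity)
      have h4 : ξ * L * (ϵ * L) = ξ * ϵ * L ^ 2 := by ring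
      linarith
    have h4 : (ξ * ϵ / 2 + 3 * C₀ * θ + 2 * θ ^ 2) * L ^ 2 < ξ * ϵ * L ^ 2 :=
      mul_lt_mul_of_pos_right c2 hLL
    have h5 : (ξ * ϵ / 2 + 3 * C₀ * θ + 2 * θ ^ 2) * L ^ 2 = ξ * ϵ / 2 * L ^ 2 +
      3 * (C₀ * θ * L ^ 2) + 2 * (θ ^ 2 * L ^ 2) := by ring
    have h6 : (q : ℝ) * (2 + Real.logb 2 (2 * m * (q : ℝ) ^ 2 * (q + 1) + 1)) =
      2 * q + q * Real.logb 2 (2 * m * (q : ℝ) ^ 2 * (q + 1) + 1) := by ring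
    rw [h6]
    linarith
  have hN3 : 4 * ε * q + q / d ≤ (s₀ : ℝ) := by
    have h1 : 4 * ε * (q : ℝ) ≤ 4 * ε * (C₀ * L) := by gcongr
    have h2 : (q : ℝ) / d ≤ C₀ * L / d := by gcongr
    have h3 := mul_le_mul_of_nonneg_right c3 hL0.le
    have h4 : (4 * ε * C₀ + C₀ / d) * L = 4 * ε * (C₀ * L) + C₀ * L / d := by ring
    have h5 : (ξ * ϵ / 2 - θ) * L = ξ * ϵ / 2 * L - θ * L := by ring
    linarith
  have hc4L : θ * L < ξ / 2 * L := mul_lt_mul_of_pos_right c4 hL0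
  -- N6
  set t₀ := ⌊μ' * L⌋₊ with ht₀
  have ht1 : (t₀ : ℝ) ≤ μ' * L := Nat.floor_le (by positivity)
  have ht2 : μ' * L < t₀ + 1 := Nat.lt_floor_add_one _
  have hεK : 0 ≤ (1 - ε) ^ K := pow_nonneg (by linarith) _
  have hN6 : (3 * τ₀ + 8 * μ * (1 - ε) ^ K * q + 2 * κ / (t₀ + 1)) +
      d * (eta1 q m n μ ε / (ξ * (ξ / 2 * L - lb d))) ≤ e₁ * L := by
    have h1 : 8 * μ * (1 - ε) ^ K * (q : ℝ) ≤ 8 * μ * (1 - ε) ^ K * C₀ * L := by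
      have := mul_le_mul_of_nonneg_left hq2 (show 0 ≤ 8 * (μ : ℝ) * (1 - ε) ^ K by positivity)
      linarith
    have h2 : 2 * (κ : ℝ) / (t₀ + 1) ≤ 2 * (κc + θ ^ 2) / μ' * L := by
      calc 2 * (κ : ℝ) / (t₀ + 1) ≤ 2 * ((κc + θ ^ 2) * L ^ 2) / (μ' * L) := by gcongr
        _ = 2 * (κc + θ ^ 2) / μ' * L := by field_simp
    have h3 : eta1 q m n μ ε / (ξ * (ξ / 2 * L - lb d)) ≤ ηθ / (ξ * (ξ / 2 - θ)) * L := by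
      have h4 : 0 < ξ * ((ξ / 2 - θ) * L) := mul_pos hξ (mul_pos (by linarith) hL0)
      calc eta1 q m n μ ε / (ξ * (ξ / 2 * L - lb d)) ≤ ηθ * L ^ 2 / (ξ * ((ξ / 2 - θ) * L)) := by
            apply div_le_div₀ (by positivity) hη h4
            apply mul_le_mul_of_nonneg_left _ hξ.le
            have : (ξ / 2 - θ) * L = ξ / 2 * L - θ * L := by ring
            linarith
        _ = ηθ / (ξ * (ξ / 2 - θ)) * L := by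
            have h5 : ξ / 2 - θ ≠ 0 := by linarith
            field_simp
    have h4 := mul_le_mul_of_nonneg_left h3 (Nat.cast_nonneg (α := ℝ) d)
    have h5 := mul_le_mul_of_nonneg_right c6 hL0.le
    have h6 : (3 * ϵ + 8 * μ * (1 - ε) ^ K * C₀ + 2 * (κc + θ ^ 2) / μ' +
      d * (ηθ / (ξ * (ξ / 2 - θ)))) * L = 3 * (ϵ * L) + 8 * μ * (1 - ε) ^ K * C₀ * L +
      2 * (κc + θ ^ 2) / μ' * L + d * (ηθ / (ξ * (ξ / 2 - θ)) * L) := by ring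
    linarith
  have hN7 : t₀ / σ + 3 ≤ e₂ * L := by
    have h1 : (t₀ : ℝ) / σ ≤ μ' * L / σ := by gcongr
    have h2 := mul_le_mul_of_nonneg_right c7 hL0.le
    have h3 : (μ' / σ + 3 * θ) * L = μ' * L / σ + 3 * (θ * L) := by ring
    linarith
  have hw : 0 < ω * L := by positivity
  have hlo' : 5 * (ω * L) * Sh ≤ ξ / 2 * L := by
    have := mul_le_mul_of_nonneg_right hlo hL0.le
    linarith
  have hJ1' : 2 * L ≤ J * (5 * (ω * L) * Sh) := by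
    have := mul_le_mul_of_nonneg_right hJ1 hL0.le
    linarith
  have hJ2' : J * (5 * (ω * L) * Sh) ≤ 3 * L := by
    have := mul_le_mul_of_nonneg_right hJ2 hL0.le
    linarith
  have hxq : x ≤ q ^ 2 := by
    have h1 : (ϵ₅ + θ ^ 2) * L ^ 2 ≤ 1 * L ^ 2 := mul_le_mul_of_nonneg_right cx hLL.le
    have h2 : L ^ 2 ≤ (q : ℝ) ^ 2 := by gcongr
    have h3 : (x : ℝ) ≤ (q : ℝ) ^ 2 := by linarith
    exact_mod_cast h3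
  have hx1 : 1 ≤ x := by exact_mod_cast hx0
  have hθLL : θ * L ≤ θ ^ 2 * L ^ 2 := by
    have := mul_le_mul_of_nonneg_left hL hθL
    have h2 : θ * L * (θ * L) = θ ^ 2 * L ^ 2 := by ring
    linarith
  have hpr : (eta1 q m n μ ε + ξ * q * lb d) + J * lb ((q * d) ^ 2 + 1) + 2 * q + lb q + L +
      lb (2 * J) + 3 < ξ * (ω * L / 2) * (x / (2 * q)) := by
    have h1 : ξ * (q : ℝ) * lb d ≤ ξ * C₀ * θ * L ^ 2 := by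
      have := mul_le_mul_of_nonneg_left (hqθ _ l4) hξ.le
      linarith
    have h2 : J * lb ((q * d) ^ 2 + 1) ≤ J * θ ^ 2 * L ^ 2 := by
      have := mul_le_mul_of_nonneg_left (l7.trans hθLL) (Nat.cast_nonneg (α := ℝ) J)
      linarith
    have h3 := mul_lt_mul_of_pos_right cpr hLL
    have h4 : ξ * ω * ϵ₅ / (4 * C₀) * L ^ 2 ≤ ξ * (ω * L / 2) * (x / (2 * q)) := by
      have h5 : ϵ₅ * L ^ 2 / (2 * (C₀ * L)) ≤ (x : ℝ) / (2 * q) := by gcongr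
      have h6 := mul_le_mul_of_nonneg_left h5 (show 0 ≤ ξ * (ω * L / 2) by positivity)
      have h7 : ξ * (ω * L / 2) * (ϵ₅ * L ^ 2 / (2 * (C₀ * L))) =
        ξ * ω * ϵ₅ / (4 * C₀) * L ^ 2 := by
        field_simp
        ring
      linarith
    have h5 : (ηθ + ξ * C₀ * θ + J * θ ^ 2 + 2 * C₀ * θ + 5 * θ ^ 2 + θ) * L ^ 2 =
      ηθ * L ^ 2 + ξ * C₀ * θ * L ^ 2 + J * θ ^ 2 * L ^ 2 + 2 * (C₀ * θ * L ^ 2) +
      5 * (θ ^ 2 * L ^ 2) + θ * L ^ 2 := by ring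
    linarith
  have hw2 : (2 : ℝ) ^ (ω * L) * 4 ≤ (n : ℝ) ^ (1 / 2 : ℝ) := by
    have hn0 : (0 : ℝ) < n := by exact_mod_cast (by omega : 0 < n)
    have h1 : (n : ℝ) = (2 : ℝ) ^ L := by
      rw [hLdef]
      unfold Lg
      rw [Real.rpow_logb (by norm_num) (by norm_num) hn0]
    rw [h1, ← Real.rpow_mul (by norm_num)]
    have h2 : (4 : ℝ) = (2 : ℝ) ^ (2 : ℝ) := by norm_num
    rw [h2, ← Real.rpow_add (by norm_num)]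
    apply Real.rpow_le_rpow_of_exponent_le (by norm_num)
    have h3 := mul_le_mul_of_nonneg_right cw2 hL0.le
    have h4 : (ω + 2 * θ) * L = ω * L + 2 * (θ * L) := by ring
    linarith
  have hN8 : κ + (m : ℝ) * (2 * μ * K * q : ℕ) + ((q : ℝ) ^ 2 / (2 * Sh) +
      J * (x * d ^ 2 + x * Real.logb 2 (3 * (q : ℝ) ^ 2 / x) + 3)) ≤ e₃ * L ^ 2 := by
    have h1 : (m : ℝ) * (2 * μ * K * q : ℕ) ≤ 2 * m * μ * K * C₀ * θ * L ^ 2 := by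
      push_cast
      have := mul_le_mul_of_nonneg_left hq1L (show (0 : ℝ) ≤ 2 * m * μ * K by positivity)
      linarith
    have h2 : (q : ℝ) ^ 2 / (2 * Sh) ≤ C₀ ^ 2 / (2 * Sh) * L ^ 2 := by
      have h3 : (q : ℝ) ^ 2 / (2 * Sh) ≤ (C₀ * L) ^ 2 / (2 * Sh) := by gcongr
      have h4 : (C₀ * L) ^ 2 / (2 * (Sh : ℝ)) = C₀ ^ 2 / (2 * Sh) * L ^ 2 := by ring
      linarith
    have h3 : Real.logb 2 (3 * (q : ℝ) ^ 2 / x) ≤ Real.logb 2 (3 * C₀ ^ 2 / ϵ₅) := by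
      apply Real.logb_le_logb_of_le (by norm_num) (by positivity)
      calc 3 * (q : ℝ) ^ 2 / x ≤ 3 * (C₀ * L) ^ 2 / (ϵ₅ * L ^ 2) := by gcongr
        _ = 3 * C₀ ^ 2 / ϵ₅ := by field_simp
    have h3' : 0 ≤ Real.logb 2 (3 * C₀ ^ 2 / ϵ₅) := by
      apply Real.logb_nonneg (by norm_num)
      rw [le_div_iff₀ hϵ₅]
      have h4 : 1 ≤ C₀ ^ 2 := one_le_pow₀ hC₀
      have h5 : 0 ≤ θ ^ 2 := by positivity
      linarith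
    have h4 : (x : ℝ) * d ^ 2 + x * Real.logb 2 (3 * (q : ℝ) ^ 2 / x) + 3 ≤
        ((ϵ₅ + θ ^ 2) * (d ^ 2 + Real.logb 2 (3 * C₀ ^ 2 / ϵ₅)) + 3 * θ ^ 2) * L ^ 2 := by
      have h5 : (x : ℝ) * d ^ 2 + x * Real.logb 2 (3 * (q : ℝ) ^ 2 / x) ≤
          ((ϵ₅ + θ ^ 2) * L ^ 2) * (d ^ 2 + Real.logb 2 (3 * C₀ ^ 2 / ϵ₅)) := by
        rw [← mul_add]
        calc (x : ℝ) * (d ^ 2 + Real.logb 2 (3 * (q : ℝ) ^ 2 / x)) ≤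
              x * (d ^ 2 + Real.logb 2 (3 * C₀ ^ 2 / ϵ₅)) :=
              mul_le_mul_of_nonneg_left (by linarith) hx0.le
          _ ≤ _ := mul_le_mul_of_nonneg_right hxup (by positivity)
      have h6 : ((ϵ₅ + θ ^ 2) * (d ^ 2 + Real.logb 2 (3 * C₀ ^ 2 / ϵ₅)) + 3 * θ ^ 2) * L ^ 2 =
        ((ϵ₅ + θ ^ 2) * L ^ 2) * (d ^ 2 + Real.logb 2 (3 * C₀ ^ 2 / ϵ₅)) +
          3 * (θ ^ 2 * L ^ 2) := by ring
      linarith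
    have h5 := mul_le_mul_of_nonneg_left h4 (Nat.cast_nonneg (α := ℝ) J)
    have h6 := mul_le_mul_of_nonneg_right c8 hLL.le
    have h7 : (κc + θ ^ 2 + 2 * m * μ * K * C₀ * θ + C₀ ^ 2 / (2 * Sh) +
      J * ((ϵ₅ + θ ^ 2) * (d ^ 2 + Real.logb 2 (3 * C₀ ^ 2 / ϵ₅)) + 3 * θ ^ 2)) * L ^ 2 =
      (κc + θ ^ 2) * L ^ 2 + 2 * m * μ * K * C₀ * θ * L ^ 2 + C₀ ^ 2 / (2 * Sh) * L ^ 2 +
      J * (((ϵ₅ + θ ^ 2) * (d ^ 2 + Real.logb 2 (3 * C₀ ^ 2 / ϵ₅)) + 3 * θ ^ 2) * L ^ 2) := by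
      ring
    linarith
  have hc₂ : 0 ≤ cB m q d J n := by
    unfold cB
    rw [← hLdef]
    positivity
  have hcard : 0 < (near ℓ q κ).card := by
    have h1 : 0 < (2 : ℝ) ^ (δ * L ^ 2) := by positivity
    have h2 : (0 : ℝ) < (near ℓ q κ).card := by linarith
    exact_mod_cast h2
  have hΛ : δ * L ^ 2 ≤ lb (near ℓ q κ).card := by
    unfold lb
    rw [Real.le_logb_iff_rpow_le (by norm_num) (by exact_mod_cast hcard)]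
    exact hne
  have hmain := static_core hm hn hℓ (d := d) (J := J) (κ := κ) (s₀ := s₀) (τ₀ := τ₀) (μ := μ)
    (K := K) (t₀ := t₀) (x := x) (Sh := Sh) (c₁ := 12 * (L + m + 4)) (c₂ := cB m q d J n)
    (ξ := ξ) (ε := ε) (w := ω * L) (e₁ := e₁) (e₂ := e₂) (e₃ := e₃) (e₄ := e₄) (e₅ := e₅)
    (Λ := δ * L ^ 2) (by positivity) hB1 hc₂ hB2 hd hξ hε hε1 hμ hK he₁ he₂ he₃ he₄ he₅ hcard hΛ
    hN1 hN2 hN3 (by linarith) (by linarith) hN6 hN7 hSh hx1 hxq hw hlo' hJ1' hJ2' hpr l9 hw2 hN8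
  rw [← hσ, ← hLdef] at hmain
  have h1 : Cst m * d ^ 2 + d ≤ (Cst m * d ^ 2 + d) * (θ * L) := by
    have h2 : 0 ≤ Cst m * d ^ 2 + d := by positivity
    have := mul_le_mul_of_nonneg_left hL h2
    linarith
  have h2 := mul_lt_mul_of_pos_right cfin hL0
  have h3 : (Cst m + ε₀) * L = Cst m * L + ε₀ * L := by ring
  have h4 : (Cst m + e₁ + Cst m * e₂ + Cst m * e₃ / e₅ + σ * e₄ +
      Real.sqrt (2 * σ * (e₅ + e₃))) * L + (Cst m * d ^ 2 + d) * (θ * L) = Cst m * L +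
      (e₁ + Cst m * e₂ + Cst m * e₃ / e₅ + σ * e₄ +
      Real.sqrt (2 * σ * (e₅ + e₃)) + (Cst m * d ^ 2 + d) * θ) * L := by ring
  linarith

end Pool.Agent.Helper65.CG
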