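import Pool.Agent.Helper65.CG.Core
import Pool.Agent.Helper65.CG.GthmZ

/-! The static argument for a fixed `n`. -/

set_option autoImplicit false

namespace Pool.Agent.Helper65.CG

open scoped Classical
open Pool.Agent.Helper65.CliqueGame

variable {n q m : ℕ}

/-- the loss in the pigeonhole steps -/
noncomputable def eta1 (q m n μ : ℕ) (ε : ℝ) : ℝ :=
  1 + 2 * q + q * lb q + 2 * μ * q * Real.logb 2 (2 * m * (q : ℝ) ^ 3 + 1) + 4 * ε * q * Lg n

/-- the constant slots -/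
theorem const_slots {A : Finset (Fin q → Fin n)} {Z₀ : Fin q → Fin n} (hZ₀ : Z₀ ∈ A) :
    ∀ Z ∈ A, ((Fr A)ᶜ).image Z = ((Fr A)ᶜ).image Z₀ := by
  intro Z hZ
  apply Finset.image_congr
  intro i hi
  rw [Finset.coe_compl, Set.mem_compl_iff, Finset.mem_coe] at hi
  unfold Fr at hi
  rw [Finset.mem_filter] at hi
  have h1 : (supp A i).card ≤ 1 := by
    by_contra h
    exact hi ⟨Finset.mem_univ _, not_le.1 h⟩
  rw [Finset.card_le_one] at h1
  exact h1 _ (Finset.mem_image_of_mem (fun Z => Z i) hZ) _ (Finset.mem_image_of_mem (fun Z => Z i) hZ₀)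

theorem dM_lower {ℓ : Sym2 (Fin n) → ℕ} {κ : ℕ} {Z : Fin q → Fin n} (hZ : NearT ℓ κ Z)
    {F : Finset (Fin q)} {D : Finset (Fin n)} (hD : (Fᶜ).image Z = D) {i : Fin q} (hi : i ∈ F)
    {t₀ : ℕ} (ht : mis ℓ Z i ≤ t₀) : (D.card : ℝ) - t₀ ≤ dM ℓ D (Z i) := by
  have h1 : D ⊆ D.filter (fun u => 2 ≤ ℓ s(u, Z i)) ∪
      (Finset.univ.filter (fun j => j ≠ i ∧ lk ℓ Z i j = 0)).image Z := by
    intro u hu
    rw [Finset.mem_union, Finset.mem_filter]
    by_cases h : 2 ≤ ℓ s(u, Z i)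
    · left; exact ⟨hu, h⟩
    · right
      rw [← hD, Finset.mem_image] at hu
      obtain ⟨j, hj, rfl⟩ := hu
      rw [Finset.mem_image]
      refine ⟨j, ?_, rfl⟩
      rw [Finset.mem_filter]
      refine ⟨Finset.mem_univ _, ?_, ?_⟩
      · rintro rfl
        exact (Finset.mem_compl.1 hj) hi
      · have h2 : lk ℓ Z j i = ℓ s(Z j, Z i) := rfl
        rw [← h2] at h
        have h3 := hZ.2.1 j i
        rw [lk_comm]
        omega
  have h2 := (Finset.card_le_card h1).trans (Finset.card_union_le _ _)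
  have h3 : ((Finset.univ.filter (fun j => j ≠ i ∧ lk ℓ Z i j = 0)).image Z).card ≤ t₀ :=
    Finset.card_image_le.trans ht
  have h4 : D.card ≤ dM ℓ D (Z i) + t₀ := by
    unfold dM
    omega
  have h5 : (D.card : ℝ) ≤ dM ℓ D (Z i) + t₀ := by exact_mod_cast h4
  linarith


theorem static_core (hm : 1 ≤ m) (hn : 2 ≤ n) {ℓ : Sym2 (Fin n) → ℕ} (hℓ : Lab m ℓ)
    {d J κ s₀ τ₀ μ K t₀ x Sh : ℕ} {c₁ c₂ ξ ε w e₁ e₂ e₃ e₄ e₅ Λ : ℝ}
    (hc1 : 0 ≤ c₁) (hB1 : Bet1 ℓ c₁) (hc2 : 0 ≤ c₂) (hB2 : Bet2 ℓ q d J c₂)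
    (hd : 1 ≤ d) (hξ : 0 < ξ) (hε : 0 < ε) (hε1 : ε < 1) (hμ : (1 - ε ^ 2) ^ μ ≤ 1 / 8)
    (hK : 2 * μ < K) (he₁ : 0 ≤ e₁) (he₂ : 0 ≤ e₂) (he₃ : 0 ≤ e₃) (he₄ : 0 ≤ e₄) (he₅ : 0 < e₅)
    (hne : 0 < (near ℓ q κ).card) (hΛ : Λ ≤ lb (near ℓ q κ).card)
    -- few constant slots
    (hN1 : (κ : ℝ) < m / Real.logb 2 ((m : ℝ) + 1) * (1 + e₄) *
      (Λ - 2 * ξ * q * Lg n - q * (Real.logb 2 ((q : ℝ) + 1) +
        Real.logb 2 (q * Lg n + c₁ + 8))))
    -- derivations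
    (hN2 : s₀ * Lg n + q * (2 + Real.logb 2 (2 * m * (q : ℝ) ^ 2 * (q + 1) + 1)) + 2 <
      ξ * Lg n * (τ₀ + 1))
    (hN3 : 4 * ε * q + q / d ≤ s₀)
    (hN4 : Real.logb 2 (q * Lg n + c₁ + 8) < ξ / 2 * Lg n)
    (hN5 : lb d < ξ / 2 * Lg n)
    (hN6 : (3 * τ₀ + 8 * μ * (1 - ε) ^ K * q + 2 * κ / (t₀ + 1)) +
      d * (eta1 q m n μ ε / (ξ * (ξ / 2 * Lg n - lb d))) ≤ e₁ * Lg n)
    (hN7 : t₀ / (m / Real.logb 2 ((m : ℝ) + 1)) + 3 ≤ e₂ * Lg n)
    (hSh : 1 ≤ Sh) (hx1 : 1 ≤ x) (hxq : x ≤ q ^ 2) (hw : 0 < w)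
    (hlo : 5 * w * Sh ≤ ξ / 2 * Lg n)
    (hJ1 : 2 * Lg n ≤ J * (5 * w * Sh)) (hJ2 : (J : ℝ) * (5 * w * Sh) ≤ 3 * Lg n)
    (hpr : (eta1 q m n μ ε + ξ * q * lb d) + J * lb ((q * d) ^ 2 + 1) + 2 * q + lb q + Lg n +
      lb (2 * J) + 3 < ξ * (w / 2) * (x / (2 * q)))
    (hbig : 100 * ((m : ℝ) + 1) ^ 2 * ((d : ℝ) + 1) ^ 4 * ((q : ℝ) + 2) ^ 4 * (Lg n + 2) *
      (c₂ + 1) ≤ (2 : ℝ) ^ w) (hw2 : (2 : ℝ) ^ w * 4 ≤ (n : ℝ) ^ (1 / 2 : ℝ))
    (hN8 : κ + (m : ℝ) * (2 * μ * K * q : ℕ) + ((q : ℝ) ^ 2 / (2 * Sh) +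
      J * (x * d ^ 2 + x * Real.logb 2 (3 * (q : ℝ) ^ 2 / x) + 3)) ≤ e₃ * (Lg n) ^ 2) :
    (q : ℝ) ≤ (Cst m + e₁ + Cst m * e₂ + Cst m * e₃ / e₅ +
      m / Real.logb 2 ((m : ℝ) + 1) * e₄ +
      Real.sqrt (2 * (m / Real.logb 2 ((m : ℝ) + 1)) * (e₅ + e₃))) * Lg n +
      Cst m * d ^ 2 + d := by
  set L := Lg n with hLdef
  set σ : ℝ := m / Real.logb 2 ((m : ℝ) + 1) with hσ
  have hL1 : 1 ≤ L := by
    rw [hLdef]
    unfold Lg
    rw [Real.le_logb_iff_rpow_le (by norm_num) (by exact_mod_cast (by omega : 0 < n))]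
    rw [Real.rpow_one]
    exact_mod_cast hn
  have hn1 : 1 ≤ n := by omega
  have hlogm : 0 < Real.logb 2 ((m : ℝ) + 1) := by
    apply Real.logb_pos (by norm_num)
    have : (1 : ℝ) ≤ m := by exact_mod_cast hm
    linarith
  have hσ0 : 0 < σ := by
    rw [hσ]
    have : (0 : ℝ) < m := by exact_mod_cast hm
    positivity
  -- tuples
  obtain ⟨A0, hA0c, hA0⟩ := tuples (q := q) hℓ κ
  have hA0ne : A0.Nonempty := by rw [← Finset.card_pos, hA0c]; exact hne
  obtain ⟨A1, hA1s, hA1ne, hreg1, hA1lb⟩ := exists_reg A0 hA0ne hξ.le hn1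
  rw [hA0c] at hA1lb
  have hA1 : ∀ Z ∈ A1, NearT ℓ κ Z := fun Z hZ => hA0 Z (hA1s hZ)
  obtain ⟨Z₀, hZ₀⟩ := hA1ne
  have hA1ne : A1.Nonempty := ⟨Z₀, hZ₀⟩
  set F := Fr A1 with hF
  set D := (Fᶜ).image Z₀ with hD
  have hDall : ∀ Z ∈ A1, (Fᶜ).image Z = D := const_slots hZ₀
  have hDcard : D.card = (Fᶜ).card :=
    Finset.card_image_of_injective _ (hA1 Z₀ hZ₀).1
  have hFq : F.card + D.card = q := by
    rw [hDcard, Finset.card_add_card_compl, Fintype.card_fin]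
  have hDq : (D.card : ℝ) ≤ q := by
    have : D.card ≤ q := by omega
    exact_mod_cast this
  -- the bound for the constant slots
  have hDb : (D.card : ℝ) ≤ σ * (1 + e₄) * L := by
    by_contra hcon
    push Not at hcon
    have h0 : σ * L + σ * e₄ * L ≤ D.card := by
      have : σ * L + σ * e₄ * L = σ * (1 + e₄) * L := by ring
      linarith
    have h00 : 0 ≤ σ * e₄ * L := mul_nonneg (mul_nonneg hσ0.le he₄) (by linarith)
    have h1 := Dbound hm hn hℓ hc1 hB1 A1 hA1ne hA1 F D hDall (a := σ * e₄ * L) h00 h0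
    rw [← hσ, ← hLdef] at h1
    have h2 : σ * e₄ * L / L = σ * e₄ := mul_div_cancel_right₀ _ (by linarith)
    rw [h2] at h1
    have h3 : Real.logb 2 ((D.card : ℝ) * L + c₁ + 8) ≤ Real.logb 2 (q * L + c₁ + 8) := by
      apply Real.logb_le_logb_of_le (by norm_num)
      · have : 0 ≤ (D.card : ℝ) * L := by positivity
        linarith
      · have : (D.card : ℝ) * L ≤ q * L := mul_le_mul_of_nonneg_right hDq (by linarith)
        linarith
    have h4 : Λ - 2 * ξ * q * L - q * (Real.logb 2 ((q : ℝ) + 1) +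
        Real.logb 2 (q * L + c₁ + 8)) ≤ lb A1.card - q * (Real.logb 2 ((q : ℝ) + 1) +
        Real.logb 2 ((D.card : ℝ) * L + c₁ + 8)) := by
      have h5 : (q : ℝ) * (Real.logb 2 ((q : ℝ) + 1) +
          Real.logb 2 ((D.card : ℝ) * L + c₁ + 8)) ≤ q * (Real.logb 2 ((q : ℝ) + 1) +
          Real.logb 2 (q * L + c₁ + 8)) :=
        mul_le_mul_of_nonneg_left (by linarith) (Nat.cast_nonneg _)
      linarith
    have h5 : σ * (1 + e₄) * (Λ - 2 * ξ * q * L - q * (Real.logb 2 ((q : ℝ) + 1) +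
        Real.logb 2 (q * L + c₁ + 8))) ≤ (σ + σ * e₄) * (lb A1.card - q *
          (Real.logb 2 ((q : ℝ) + 1) + Real.logb 2 ((D.card : ℝ) * L + c₁ + 8))) := by
      have : σ + σ * e₄ = σ * (1 + e₄) := by ring
      rw [this]
      exact mul_le_mul_of_nonneg_left h4 (by positivity)
    linarith
  -- tame tuples
  have hder := derive hm hn1 hℓ hξ.le hreg1 s₀ τ₀ hN2
  rw [← hF] at hder
  set A1' := A1.filter (fun Z => Tame ℓ Z F s₀ τ₀) with hA1'
  have hsplit : (A1.filter (fun Z => ¬ Tame ℓ Z F s₀ τ₀)).card + A1'.card = A1.card := by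
    rw [hA1', add_comm]
    exact Finset.card_filter_add_card_filter_not _
  have hA1pos : 0 < A1.card := hA1ne.card_pos
  have hA1'c : A1.card ≤ 2 * A1'.card := by omega
  have hA1'ne : A1'.Nonempty := by rw [← Finset.card_pos]; omega
  have hA1'lb : lb A1.card - lb A1'.card ≤ 1 := by
    have h1 := lb_mono (show 1 ≤ A1.card from hA1pos) hA1'c
    rw [lb_mul (by norm_num) (by omega)] at h1
    have h2 : lb 2 = 1 := by unfold lb; simp
    linarith
  -- clusters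
  obtain ⟨vt, hvt⟩ := exists_enum (ℓ := ℓ) hm hn1 hℓ
  set drop : ℝ := 3 * τ₀ + 8 * μ * (1 - ε) ^ K * q + 2 * κ / (t₀ + 1) with hdrop
  obtain ⟨A2, hA2s, hA2ne, C, hCs, hCP, hCS, hA2lb⟩ := clustered ℓ vt A1' hA1'ne hn1
    (PredD ℓ vt F d (2 * μ * K * q) t₀ drop) (by
      intro Z hZ
      have hZ' := Finset.mem_filter.1 hZ
      exact exists_clu hm hℓ hvt (hA1 Z hZ'.1) hε hε1 hμ hK hd hZ'.2 hN3 t₀)
  have hA21 : A2 ⊆ A1 := hA2s.trans (Finset.filter_subset _ _)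
  have hCok : ∀ Z ∈ A2, CluOK ℓ vt Z C d (2 * μ * K * q) := fun Z hZ => (hCP Z hZ).1
  obtain ⟨Z₂, hZ₂⟩ := hA2ne
  have hA2ne : A2.Nonempty := ⟨Z₂, hZ₂⟩
  have hGF : C.G ⊆ F := (hCP Z₂ hZ₂).2.1
  have hFG : ((F \ C.G).card : ℝ) ≤ drop := (hCP Z₂ hZ₂).2.2.1
  have hη : lb A1.card - lb A2.card ≤ eta1 q m n μ ε := by
    unfold eta1
    have h1 : ((⌊4 * ε * (q : ℝ)⌋₊ : ℕ) : ℝ) * Lg n ≤ 4 * ε * q * Lg n :=
      mul_le_mul_of_nonneg_right (Nat.floor_le (by positivity)) (by rw [← hLdef]; linarith)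
    push_cast at hA2lb
    linarith
  have hη0 : 0 ≤ eta1 q m n μ ε := by
    have := lb_mono (show 1 ≤ A2.card from hA2ne.card_pos) (Finset.card_le_card hA21)
    linarith
  -- class values
  set V : Fin q → Finset (Finset (Fin n)) := fun P => A2.image (fun Z => C.cv Z P) with hV
  set PP : Finset (Fin q) := Finset.univ.filter (fun P => (C.mem P).Nonempty ∧
    ξ / 2 * L ≤ lb (V P).card) with hPP
  set PL : Finset (Fin q) := Finset.univ.filter (fun P => (C.mem P).Nonempty ∧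
    lb (V P).card < ξ / 2 * L) with hPL
  have hPPm : ∀ P ∈ PP, (C.mem P).Nonempty := fun P hP => (Finset.mem_filter.1 hP).2.1
  have hregC := regC_of_regS hξ.le hn1 hreg1 hA21 hA2ne hη hCok hCS PP hPPm
  have hlow := low_classes hξ.le hn1 hreg1 hd hA21 hA2ne hη hCok hGF PL
    (fun P hP => (Finset.mem_filter.1 hP).2)
  have hVne : ∀ P, (V P).Nonempty := fun P => hA2ne.image _
  have hmemG : ∀ P, ∀ i ∈ C.mem P, i ∈ C.G ∧ C.cls i = P := by
    intro P i hi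
    unfold Clu.mem at hi
    exact Finset.mem_filter.1 hi
  -- sizes of classes
  have hksum : ∀ T : Finset (Fin q), ∑ P ∈ T, (C.mem P).card =
      (C.G.filter (fun i => C.cls i ∈ T)).card := by
    intro T
    rw [Finset.card_eq_sum_card_fiberwise (f := C.cls) (t := T)]
    · apply Finset.sum_congr rfl
      intro P hP
      congr 1
      unfold Clu.mem
      ext i
      simp only [Finset.mem_filter]
      constructor
      · rintro ⟨h1, rfl⟩; exact ⟨⟨h1, hP⟩, rfl⟩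
      · rintro ⟨⟨h1, _⟩, h3⟩; exact ⟨h1, h3⟩
    · intro i hi
      have hi' : i ∈ C.G.filter (fun i => C.cls i ∈ T) := hi
      exact (Finset.mem_filter.1 hi').2
  have hkq : ∑ P ∈ PP, (C.mem P).card ≤ q := by
    rw [hksum]
    refine (Finset.card_le_univ _).trans ?_
    rw [Fintype.card_fin]
  have hGsum : C.G.card ≤ ∑ P ∈ PP, (C.mem P).card + d * PL.card := by
    have h1 : C.G ⊆ C.G.filter (fun i => C.cls i ∈ PP) ∪ C.G.filter (fun i => C.cls i ∈ PL) := by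
      intro i hi
      have hne : (C.mem (C.cls i)).Nonempty := ⟨i, by
        unfold Clu.mem
        exact Finset.mem_filter.2 ⟨hi, rfl⟩⟩
      rw [Finset.mem_union]
      by_cases h : ξ / 2 * L ≤ lb (V (C.cls i)).card
      · left
        have hm' : C.cls i ∈ PP := Finset.mem_filter.2 ⟨Finset.mem_univ _, hne, h⟩
        exact Finset.mem_filter.2 ⟨hi, hm'⟩
      · right
        have hm' : C.cls i ∈ PL := Finset.mem_filter.2 ⟨Finset.mem_univ _, hne, not_le.1 h⟩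
        exact Finset.mem_filter.2 ⟨hi, hm'⟩
    have h2 := (Finset.card_le_card h1).trans (Finset.card_union_le _ _)
    rw [← hksum, ← hksum] at h2
    have h3 : ∑ P ∈ PL, (C.mem P).card ≤ ∑ P ∈ PL, d :=
      Finset.sum_le_sum fun P _ => (hCok Z₂ hZ₂).size P
    rw [Finset.sum_const, smul_eq_mul] at h3
    have h4 : PL.card * d = d * PL.card := mul_comm _ _
    omega
  have hPLb : (d : ℝ) * PL.card ≤ d * (eta1 q m n μ ε / (ξ * (ξ / 2 * L - lb d))) := by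
    apply mul_le_mul_of_nonneg_left _ (Nat.cast_nonneg _)
    rw [le_div_iff₀ (mul_pos hξ (by linarith))]
    linarith
  -- final numbers: the number of slots
  have h1 : (q : ℝ) ≤ D.card + ∑ P ∈ PP, ((C.mem P).card : ℝ) + e₁ * L := by
    have h2 : F.card ≤ C.G.card + (F \ C.G).card := by
      have := Finset.card_sdiff_add_card_eq_card hGF
      omega
    have h3 : (F.card : ℝ) ≤ C.G.card + (F \ C.G).card := by exact_mod_cast h2
    have h4 : (C.G.card : ℝ) ≤ ∑ P ∈ PP, ((C.mem P).card : ℝ) + d * PL.card := by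
      exact_mod_cast hGsum
    have h5 : (q : ℝ) = F.card + D.card := by
      have := hFq.symm
      exact_mod_cast this
    linarith
  -- levels
  have hVsupp : ∀ P, ∀ i ∈ C.mem P, (V P).card ≤ (supp A2 i).card := fun P i hi =>
    V_le_supp hCok hCS hi
  have hup : ∀ P ∈ PP, lb (V P).card ≤ Lg n := by
    intro P hP
    obtain ⟨i, hi⟩ := hPPm P hP
    have h2 : (V P).card ≤ n := by
      refine (hVsupp P i hi).trans ((Finset.card_le_univ _).trans ?_)
      rw [Fintype.card_fin]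
    exact lb_mono (hVne P).card_pos h2
  have h2 : ∀ P ∈ PP, lb (V P).card ≤ L - D.card / σ + e₂ * L := by
    intro P hP
    obtain ⟨i, hi⟩ := hPPm P hP
    have hiG := (hmemG P i hi).1
    have hiF := hGF hiG
    have hsne : (supp A2 i).Nonempty := hA2ne.image _
    have hVs := lb_mono (show 1 ≤ (V P).card from (hVne P).card_pos) (hVsupp P i hi)
    have hdis : Disjoint D (supp A2 i) := by
      rw [Finset.disjoint_left]
      intro v hvD hvX
      unfold supp at hvX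
      rw [Finset.mem_image] at hvX
      obtain ⟨Z, hZ, rfl⟩ := hvX
      rw [← hDall Z (hA21 hZ), Finset.mem_image] at hvD
      obtain ⟨j, hj, hji⟩ := hvD
      have := (hA1 Z (hA21 hZ)).1 hji
      rw [this] at hj
      exact (Finset.mem_compl.1 hj) hiF
    have hal : Alive ℓ (join D (supp A2 i)) := by
      intro e he
      unfold join at he
      rw [Finset.mem_image] at he
      obtain ⟨⟨u, v⟩, huv, rfl⟩ := he
      rw [Finset.mem_product] at huv
      obtain ⟨hu, hv⟩ := huv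
      unfold supp at hv
      rw [Finset.mem_image] at hv
      obtain ⟨Z, hZ, hZv⟩ := hv
      rw [← hDall Z (hA21 hZ), Finset.mem_image] at hu
      obtain ⟨j, hj, hju⟩ := hu
      have := (hA1 Z (hA21 hZ)).2.1 j i
      unfold lk at this
      rw [hju, hZv] at this
      exact this
    have hdm : ∀ v ∈ supp A2 i, (D.card : ℝ) - t₀ ≤ dM ℓ D v := by
      intro v hv
      unfold supp at hv
      rw [Finset.mem_image] at hv
      obtain ⟨Z, hZ, rfl⟩ := hv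
      exact dM_lower (hA1 Z (hA21 hZ)) (hDall Z (hA21 hZ)) hiF ((hCP Z hZ).2.2.2 i hiG)
    have hb := base hm hℓ hc1 hB1 D (supp A2 i) hsne hdis hal hdm
    rw [← hσ] at hb
    have hPlow : ξ / 2 * L ≤ lb (V P).card := (Finset.mem_filter.1 hP).2.2
    rcases hb with hb | hb
    · exfalso
      have h3 : lb (supp A2 i).card ≤ Real.logb 2 (q * L + c₁ + 8) := by
        unfold lb
        apply Real.logb_le_logb_of_le (by norm_num)
        · exact_mod_cast hsne.card_pos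
        · have h4 : (D.card : ℝ) * Lg n ≤ q * L := mul_le_mul_of_nonneg_right hDq (by linarith)
          linarith
      linarith
    · have h3 : ((D.card : ℝ) - t₀) / σ = D.card / σ - t₀ / σ := by rw [sub_div]
      rw [h3] at hb
      linarith
  -- the gain
  have hGa : ∀ Z ∈ A2, ∑ p ∈ prs PP, rho m ((C.mem p.1).card * (C.mem p.2).card) - κ -
      m * (2 * μ * K * q : ℕ) ≤ ga ℓ (UU (C.cv Z) (prs PP)) := fun Z hZ =>
    ga_lower hm hℓ (hA1 Z (hA21 hZ)) (hCok Z hZ) PP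
  have hlbd : 0 ≤ ξ * q * lb d := mul_nonneg (by positivity) (lb_nonneg _)
  have hG := Gthm hm hn hℓ hd hc2 hB2 hA2ne (cv := fun Z => C.cv Z) hξ
    (add_nonneg hη0 hlbd) hregC (fun Z hZ P _ => Finset.mem_image_of_mem (fun Z => C.cv Z P) hZ)
    hup (fun P _ v hv => by
      rw [Finset.mem_image] at hv
      obtain ⟨Z, hZ, rfl⟩ := hv
      rw [cv_card (hA1 Z (hA21 hZ)).1]
      exact (hCok Z hZ).size P)
    (fun P _ y => V_point hCok hCS P y)
    (fun Z hZ e he => by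
      unfold UU at he
      rw [Finset.mem_biUnion] at he
      obtain ⟨p, _, he⟩ := he
      unfold join at he
      rw [Finset.mem_image] at he
      obtain ⟨⟨u, v⟩, huv, rfl⟩ := he
      rw [Finset.mem_product] at huv
      obtain ⟨hu, hv⟩ := huv
      unfold Clu.cv at hu hv
      rw [Finset.mem_image] at hu hv
      obtain ⟨i, _, rfl⟩ := hu
      obtain ⟨j, _, rfl⟩ := hv
      exact (hA1 Z (hA21 hZ)).2.1 i j)
    (fun P => (C.mem P).card) (fun Z hZ P _ => cv_card (hA1 Z (hA21 hZ)).1 C P) hkq hSh hx1 hxq hw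
    (fun P hP => hlo.trans (Finset.mem_filter.1 hP).2.2) hJ1 hJ2 hpr hbig hw2 hGa
  exact final_num hm (fun P => (C.mem P).card) (fun P hP => ⟨(hPPm P hP).card_pos,
    (hCok Z₂ hZ₂).size P⟩) (fun P => lb (V P).card) hL1 (Nat.cast_nonneg _) he₁ he₂ he₃ he₄ he₅
    h1 h2 hup (by linarith) hDb

end Pool.Agent.Helper65.CG
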