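import Pool.Agent.Helper65.CG.Scaled
import Pool.Agent.Helper65.CG.Pars
import Pool.Agent.Helper65.CG.Logs

/-! The upper bound. -/

set_option autoImplicit false

namespace Pool.Agent.Helper65.CG

open scoped Classical
open Pool.Agent.Helper65.CliqueGame

variable {n q m : ℕ}

theorem ent_num (hm : 1 ≤ m) {L κ T δ θ κc : ℝ} (hL : 0 < L)
    (hκ : κc * L ^ 2 ≤ κ) (hT0 : 0 ≤ T) (hT : T ≤ (2 : ℝ) ^ (δ * L ^ 2)) (hδ : 0 < δ)
    (hθL : 1 ≤ θ * L) (h2 : 2 * ((m : ℝ) + 3) ≤ (2 : ℝ) ^ (θ * L))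
    (cent : m / Real.logb 2 ((m : ℝ) + 1) * (δ + θ ^ 2 + 2 * θ) < κc - m * θ ^ 2) :
    ((m : ℝ) + 3) * (T + 1) * ((2 : ℝ) ^ L) ^ 2 < ((m : ℝ) + 1) ^ ((κ - m) / m) := by
  have hm1 : (1 : ℝ) ≤ m := by exact_mod_cast hm
  have hlogm : 0 < Real.logb 2 ((m : ℝ) + 1) := Real.logb_pos (by norm_num) (by linarith)
  set c := Real.logb 2 ((m : ℝ) + 1) with hc
  have h1 : (m : ℝ) + 1 = 2 ^ c := by
    rw [hc, Real.rpow_logb (by norm_num) (by norm_num) (by linarith)]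
  rw [h1, ← Real.rpow_mul (by norm_num)]
  have hone : 1 ≤ (2 : ℝ) ^ (δ * L ^ 2) := Real.one_le_rpow (by norm_num) (by positivity)
  have h3 : ((m : ℝ) + 3) * (T + 1) ≤ 2 ^ (θ * L) * 2 ^ (δ * L ^ 2) := by
    calc ((m : ℝ) + 3) * (T + 1) ≤ ((m : ℝ) + 3) * (2 * 2 ^ (δ * L ^ 2)) := by
          gcongr; linarith
      _ = (2 * ((m : ℝ) + 3)) * 2 ^ (δ * L ^ 2) := by ring
      _ ≤ _ := by gcongr
  have h4 : ((2 : ℝ) ^ L) ^ 2 = 2 ^ (2 * L) := by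
    rw [← Real.rpow_natCast, ← Real.rpow_mul (by norm_num)]
    congr 1
    push_cast
    ring
  have h5 : ((m : ℝ) + 3) * (T + 1) * ((2 : ℝ) ^ L) ^ 2 ≤
      2 ^ (θ * L + δ * L ^ 2 + 2 * L) := by
    rw [h4, Real.rpow_add (by norm_num), Real.rpow_add (by norm_num)]
    gcongr
  refine h5.trans_lt (Real.rpow_lt_rpow_of_exponent_lt (by norm_num) ?_)
  have hLL : 0 < L ^ 2 := by positivity
  have T2 : 1 ≤ θ ^ 2 * L ^ 2 := by
    have : (1 : ℝ) ^ 2 ≤ (θ * L) ^ 2 := pow_le_pow_left₀ (by norm_num) hθL 2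
    rw [mul_pow] at this
    linarith
  have T3 : L ≤ θ * L ^ 2 := by
    have := mul_le_mul_of_nonneg_right hθL hL.le
    have h2 : θ * L * L = θ * L ^ 2 := by ring
    linarith
  have T4 : θ * L ≤ θ ^ 2 * L ^ 2 := by
    have := mul_le_mul_of_nonneg_left hθL (show 0 ≤ θ * L by linarith)
    have h2 : θ * L * (θ * L) = θ ^ 2 * L ^ 2 := by ring
    linarith
  have h6 : θ * L + δ * L ^ 2 + 2 * L ≤ (δ + θ ^ 2 + 2 * θ) * L ^ 2 := by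
    have : (δ + θ ^ 2 + 2 * θ) * L ^ 2 = δ * L ^ 2 + θ ^ 2 * L ^ 2 + 2 * (θ * L ^ 2) := by ring
    linarith
  have h7 : (δ + θ ^ 2 + 2 * θ) * L ^ 2 < c * ((κ - m) / m) := by
    have h8 := mul_lt_mul_of_pos_right cent (show 0 < c / m * L ^ 2 by positivity)
    have h9 : m / c * (δ + θ ^ 2 + 2 * θ) * (c / m * L ^ 2) = (δ + θ ^ 2 + 2 * θ) * L ^ 2 := by
      field_simp
    rw [h9] at h8
    refine h8.trans_le ?_
    have h10 : (κc - m * θ ^ 2) * L ^ 2 ≤ κ - m := by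
      have h11 := mul_le_mul_of_nonneg_left T2 (show (0 : ℝ) ≤ m by linarith)
      have h12 : (κc - m * θ ^ 2) * L ^ 2 = κc * L ^ 2 - m * (θ ^ 2 * L ^ 2) := by ring
      linarith
    have h11 := mul_le_mul_of_nonneg_left h10 (show 0 ≤ c / m by positivity)
    have h12 : (κc - m * θ ^ 2) * (c / m * L ^ 2) = c / m * ((κc - m * θ ^ 2) * L ^ 2) := by ring
    have h13 : c * ((κ - m) / m) = c / m * (κ - m) := by ring
    rw [h12, h13]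
    exact h11
  linarith

/-- **The upper bound**, as a statement about the game. -/
theorem upper_wins (hm : 1 ≤ m) {ε₀ : ℝ} (hε₀ : 0 < ε₀) : ∃ n₀ : ℕ, ∀ n, n₀ ≤ n → ∀ q : ℕ,
    (Cst m + ε₀) * Lg n ≤ q → ¬ MakerWins n m q true ∅ ∅ := by
  obtain ⟨P⟩ := exists_pars hm hε₀
  have hσ1 := sg_ge hm
  have hC1 : 1 ≤ Cst m := hσ1.trans (Cst_ge hm)
  have hC₀1 : 1 ≤ P.C₀ := by rw [P.hC₀]; linarith
  obtain ⟨n₀, hn₀⟩ := logs m P.d P.J hC₀1 P.hθ P.hω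
  refine ⟨max n₀ 2, fun n hn q₁ hq₁ hwin => ?_⟩
  have hn2 : 2 ≤ n := (le_max_right _ _).trans hn
  have hn1 : 1 ≤ n := by omega
  set L := Lg n with hLdef
  have hL1 : 1 ≤ L := by
    rw [hLdef]
    unfold Lg
    rw [Real.le_logb_iff_rpow_le (by norm_num) (by exact_mod_cast (by omega : 0 < n))]
    rw [Real.rpow_one]
    exact_mod_cast hn2
  have hL0 : 0 < L := by linarith
  set q := ⌈(Cst m + ε₀) * L⌉₊ with hq
  have hqlo : (Cst m + ε₀) * L ≤ q := Nat.le_ceil _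
  have hqup : (q : ℝ) ≤ P.C₀ * L := by
    have h1 := (Nat.ceil_lt_add_one (show 0 ≤ (Cst m + ε₀) * L by positivity)).le
    rw [P.hC₀]
    have h2 : (Cst m + ε₀ + 1) * L = (Cst m + ε₀) * L + L := by ring
    linarith
  have hqL : L ≤ q := by
    have : 1 * L ≤ (Cst m + ε₀) * L := mul_le_mul_of_nonneg_right (by linarith) hL0.le
    linarith
  have hqq : q ≤ q₁ := Nat.ceil_le.2 hq₁
  have hwin' := wins_anti hqq hwin
  obtain ⟨_, hθL, l10, l1, l2, l3, l4, l5, l6, l7, l8, l9⟩ :=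
    hn₀ n ((le_max_left _ _).trans hn) q hqL hqup
  rw [← hLdef] at hθL l10 l1 l2 l3 l4 l5 l6 l7 l8 l9
  obtain ⟨β, hβ0, hβ1, hβ⟩ := bets m q P.d P.J hm hn2
  have T2 : 1 ≤ P.θ ^ 2 * L ^ 2 := by
    have : (1 : ℝ) ^ 2 ≤ (P.θ * L) ^ 2 := pow_le_pow_left₀ (by norm_num) hθL 2
    rw [mul_pow] at this
    linarith
  have hLL : 0 < L ^ 2 := by positivity
  refine entry hm hn1 (κ := ⌈P.κc * L ^ 2⌉₊) (T := ⌊(2 : ℝ) ^ (P.δ * L ^ 2)⌋₊) β hβ0 hβ1 ?_ ?_ ?_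
    hwin'
  · intro ℓ hℓ hval
    by_contra hcon
    push Not at hcon
    obtain ⟨hB1, hB2⟩ := hβ ℓ hℓ hval
    have hne : (2 : ℝ) ^ (P.δ * L ^ 2) ≤ (near ℓ q ⌈P.κc * L ^ 2⌉₊).card :=
      (Nat.lt_of_floor_lt hcon).le
    exact scaled hm hn2 hC₀1 hC1 P.he₁ P.he₂ P.he₃ P.he₄ P.he₅ P.hμ'0 P.hκc0 P.hξ P.hϵ P.hω
      P.hϵ₅ P.hε P.hε1 P.hθ P.hd P.hSh P.hμ P.hK P.hJ1 P.hJ2 P.hlo P.c1 P.c2 P.c3 P.c4 P.c6 P.c7
      P.cpr P.cw2 P.c8 P.cx hθL hqlo hqup hqL P.cfin l1 l2 l3 l4 l5 l6 l7 l8 l9 hℓ hB1 hB2 hne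
  · -- `κ + m < C(q, 2)`
    have h1 : ((⌈P.κc * L ^ 2⌉₊ : ℕ) : ℝ) ≤ P.κc * L ^ 2 + P.θ ^ 2 * L ^ 2 := by
      have := (Nat.ceil_lt_add_one (show 0 ≤ P.κc * L ^ 2 by
        have := P.hκc0
        positivity)).le
      linarith
    have h2 : (m : ℝ) ≤ m * (P.θ ^ 2 * L ^ 2) := by
      have := mul_le_mul_of_nonneg_left T2 (Nat.cast_nonneg (α := ℝ) m)
      linarith
    have h3 := mul_lt_mul_of_pos_right P.ck hLL
    have h4 : (1 - P.θ) / 2 * L ^ 2 ≤ (q : ℝ) * (q - 1) / 2 := by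
      have h5 : (1 - P.θ) * L ≤ L - 1 := by
        have : (1 - P.θ) * L = L - P.θ * L := by ring
        linarith
      have h6 : L * ((1 - P.θ) * L) ≤ q * (q - 1) := by
        calc L * ((1 - P.θ) * L) ≤ L * (L - 1) := mul_le_mul_of_nonneg_left h5 hL0.le
          _ ≤ q * (q - 1) := by
            apply mul_le_mul hqL (by linarith) (by linarith) (by positivity)
      have h7 : (1 - P.θ) / 2 * L ^ 2 = L * ((1 - P.θ) * L) / 2 := by ring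
      linarith
    have h5 : ((q.choose 2 : ℕ) : ℝ) = (q : ℝ) * (q - 1) / 2 := Nat.cast_choose_two ℝ q
    have h6 : (((⌈P.κc * L ^ 2⌉₊ + m : ℕ)) : ℝ) < ((q.choose 2 : ℕ) : ℝ) := by
      push_cast
      rw [h5]
      have h7 : (P.κc + (m + 1) * P.θ ^ 2) * L ^ 2 = P.κc * L ^ 2 + P.θ ^ 2 * L ^ 2 +
        m * (P.θ ^ 2 * L ^ 2) := by ring
      linarith
    exact_mod_cast h6
  · have hn0 : (0 : ℝ) < n := by exact_mod_cast (by omega : 0 < n)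
    have h1 : (n : ℝ) = (2 : ℝ) ^ L := by
      rw [hLdef]
      unfold Lg
      rw [Real.rpow_logb (by norm_num) (by norm_num) hn0]
    rw [h1]
    exact ent_num hm hL0 (Nat.le_ceil _) (Nat.cast_nonneg _) (Nat.floor_le (by positivity))
      P.hδ hθL l10 P.cent

end Pool.Agent.Helper65.CG
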